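import Pool.Agent.Q256.Tot.Base

set_option autoImplicit false

/-! The numbers `(k + 1) ^ φ(4722 - k) + k`. -/

namespace Pool.Agent.Q256.TotA

open Pool.Agent.Q256.Tot

/-- `(k + 1) ^ φ(4722 - k) + k` -/
def NN (k : ℕ) : ℕ := Nat.add (Nat.pow (Nat.succ k) (tt 16 (Nat.sub 4722 k))) k

theorem NN_eq (k : ℕ) (h : k < 4722) : NN k = (k + 1) ^ Nat.totient (4722 - k) + k := by
  have e : NN k = (k + 1) ^ tt 16 (4722 - k) + k := rfl
  rw [e, tt_eq 16 (4722 - k) (by omega) (by norm_num; omega) (by omega)]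

end Pool.Agent.Q256.TotA
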