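import Pool.Agent.Q256.TotA.Def

set_option autoImplicit false

/-! Fermat tests to the base 2 (part 0). -/

namespace Pool.Agent.Q256.TotA.P0

open Pool.Agent.Q256.Tot

theorem t8 : ftest (NN 8) 10 934 = true := by decide +kernel
theorem t109 : ftest (NN 109) 12 3347 = true := by decide +kernel
theorem t160 : ftest (NN 160) 12 2090 = true := by decide +kernel
theorem t246 : ftest (NN 246) 11 1479 = true := by decide +kernel
theorem t258 : ftest (NN 258) 11 1444 = true := by decide +kernel
theorem t321 : ftest (NN 321) 12 3037 = true := by decide +kernel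
theorem t389 : ftest (NN 389) 12 3990 = true := by decide +kernel
theorem t412 : ftest (NN 412) 11 1869 = true := by decide +kernel
theorem t560 : ftest (NN 560) 12 2375 = true := by decide +kernel
theorem t643 : ftest (NN 643) 13 4757 = true := by decide +kernel
theorem t844 : ftest (NN 844) 11 2013 = true := by decide +kernel
theorem t879 : ftest (NN 879) 12 2641 = true := by decide +kernel
theorem t1397 : ftest (NN 1397) 12 2822 = true := by decide +kernel
theorem t1799 : ftest (NN 1799) 12 3796 = true := by decide +kernel
theorem t2048 : ftest (NN 2048) 11 1568 = true := by decide +kernel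
theorem t2312 : ftest (NN 2312) 11 1342 = true := by decide +kernel
theorem t2432 : ftest (NN 2432) 11 1283 = true := by decide +kernel
theorem t2475 : ftest (NN 2475) 11 1793 = true := by decide +kernel
theorem t2717 : ftest (NN 2717) 12 2282 = true := by decide +kernel
theorem t2782 : ftest (NN 2782) 11 1099 = true := by decide +kernel
theorem t2974 : ftest (NN 2974) 11 1143 = true := by decide +kernel
theorem t3498 : ftest (NN 3498) 10 566 = true := by decide +kernel
theorem t4051 : ftest (NN 4051) 10 899 = true := by decide +kernel
theorem t4068 : ftest (NN 4068) 9 324 = true := by decide +kernel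
theorem t4146 : ftest (NN 4146) 9 289 = true := by decide +kernel
theorem t4249 : ftest (NN 4249) 10 633 = true := by decide +kernel
theorem t4703 : ftest (NN 4703) 5 28 = true := by decide +kernel

theorem all : ∀ k ∈ [8, 109, 160, 246, 258, 321, 389, 412, 560, 643, 844, 879, 1397, 1799, 2048, 2312, 2432, 2475, 2717, 2782, 2974, 3498, 4051, 4068, 4146, 4249, 4703], ¬ (NN k).Prime := by
  intro k hk
  simp only [List.mem_cons, List.not_mem_nil, or_false] at hk
  rcases hk with rfl | rfl | rfl | rfl | rfl | rfl | rfl | rfl | rfl | rfl | rfl | rfl | rfl | rfl | rfl | rfl | rfl | rfl | rfl | rfl | rfl | rfl | rfl | rfl | rfl | rfl | rfl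
  · exact not_prime_of_ftest _ _ _ t8
  · exact not_prime_of_ftest _ _ _ t109
  · exact not_prime_of_ftest _ _ _ t160
  · exact not_prime_of_ftest _ _ _ t246
  · exact not_prime_of_ftest _ _ _ t258
  · exact not_prime_of_ftest _ _ _ t321
  · exact not_prime_of_ftest _ _ _ t389
  · exact not_prime_of_ftest _ _ _ t412
  · exact not_prime_of_ftest _ _ _ t560
  · exact not_prime_of_ftest _ _ _ t643
  · exact not_prime_of_ftest _ _ _ t844
  · exact not_prime_of_ftest _ _ _ t879
  · exact not_prime_of_ftest _ _ _ t1397
  · exact not_prime_of_ftest _ _ _ t1799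
  · exact not_prime_of_ftest _ _ _ t2048
  · exact not_prime_of_ftest _ _ _ t2312
  · exact not_prime_of_ftest _ _ _ t2432
  · exact not_prime_of_ftest _ _ _ t2475
  · exact not_prime_of_ftest _ _ _ t2717
  · exact not_prime_of_ftest _ _ _ t2782
  · exact not_prime_of_ftest _ _ _ t2974
  · exact not_prime_of_ftest _ _ _ t3498
  · exact not_prime_of_ftest _ _ _ t4051
  · exact not_prime_of_ftest _ _ _ t4068
  · exact not_prime_of_ftest _ _ _ t4146
  · exact not_prime_of_ftest _ _ _ t4249
  · exact not_prime_of_ftest _ _ _ t4703

end Pool.Agent.Q256.TotA.P0
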