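import Pool.Agent.Q256.TotA.Def

set_option autoImplicit false

/-! Fermat tests to the base 2 (part 1). -/

namespace Pool.Agent.Q256.TotA.P1

open Pool.Agent.Q256.Tot

theorem t198 : ftest (NN 198) 11 1283 = true := by decide +kernel
theorem t309 : ftest (NN 309) 12 3042 = true := by decide +kernel
theorem t583 : ftest (NN 583) 13 4754 = true := by decide +kernel
theorem t667 : ftest (NN 667) 12 3801 = true := by decide +kernel
theorem t810 : ftest (NN 810) 11 1566 = true := by decide +kernel
theorem t1198 : ftest (NN 1198) 12 2251 = true := by decide +kernel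
theorem t1308 : ftest (NN 1308) 11 1471 = true := by decide +kernel
theorem t1371 : ftest (NN 1371) 12 2908 = true := by decide +kernel
theorem t1520 : ftest (NN 1520) 12 2115 = true := by decide +kernel
theorem t1677 : ftest (NN 1677) 11 1800 = true := by decide +kernel
theorem t1759 : ftest (NN 1759) 12 3992 = true := by decide +kernel
theorem t2217 : ftest (NN 2217) 11 1846 = true := by decide +kernel
theorem t2317 : ftest (NN 2317) 12 2415 = true := by decide +kernel
theorem t2345 : ftest (NN 2345) 12 3326 = true := by decide +kernel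
theorem t2553 : ftest (NN 2553) 11 2038 = true := by decide +kernel
theorem t2668 : ftest (NN 2668) 11 1332 = true := by decide +kernel
theorem t2969 : ftest (NN 2969) 12 2527 = true := by decide +kernel
theorem t3380 : ftest (NN 3380) 10 880 = true := by decide +kernel
theorem t3458 : ftest (NN 3458) 10 917 = true := by decide +kernel
theorem t3561 : ftest (NN 3561) 11 1115 = true := by decide +kernel
theorem t3592 : ftest (NN 3592) 10 662 = true := by decide +kernel
theorem t3630 : ftest (NN 3630) 9 426 = true := by decide +kernel
theorem t3739 : ftest (NN 3739) 11 1457 = true := by decide +kernel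
theorem t3757 : ftest (NN 3757) 11 1141 = true := by decide +kernel
theorem t4029 : ftest (NN 4029) 10 539 = true := by decide +kernel
theorem t4510 : ftest (NN 4510) 8 158 = true := by decide +kernel
theorem t4673 : ftest (NN 4673) 6 64 = true := by decide +kernel

theorem all : ∀ k ∈ [198, 309, 583, 667, 810, 1198, 1308, 1371, 1520, 1677, 1759, 2217, 2317, 2345, 2553, 2668, 2969, 3380, 3458, 3561, 3592, 3630, 3739, 3757, 4029, 4510, 4673], ¬ (NN k).Prime := by
  intro k hk
  simp only [List.mem_cons, List.not_mem_nil, or_false] at hk
  rcases hk with rfl | rfl | rfl | rfl | rfl | rfl | rfl | rfl | rfl | rfl | rfl | rfl | rfl | rfl | rfl | rfl | rfl | rfl | rfl | rfl | rfl | rfl | rfl | rfl | rfl | rfl | rfl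
  · exact not_prime_of_ftest _ _ _ t198
  · exact not_prime_of_ftest _ _ _ t309
  · exact not_prime_of_ftest _ _ _ t583
  · exact not_prime_of_ftest _ _ _ t667
  · exact not_prime_of_ftest _ _ _ t810
  · exact not_prime_of_ftest _ _ _ t1198
  · exact not_prime_of_ftest _ _ _ t1308
  · exact not_prime_of_ftest _ _ _ t1371
  · exact not_prime_of_ftest _ _ _ t1520
  · exact not_prime_of_ftest _ _ _ t1677
  · exact not_prime_of_ftest _ _ _ t1759
  · exact not_prime_of_ftest _ _ _ t2217
  · exact not_prime_of_ftest _ _ _ t2317
  · exact not_prime_of_ftest _ _ _ t2345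
  · exact not_prime_of_ftest _ _ _ t2553
  · exact not_prime_of_ftest _ _ _ t2668
  · exact not_prime_of_ftest _ _ _ t2969
  · exact not_prime_of_ftest _ _ _ t3380
  · exact not_prime_of_ftest _ _ _ t3458
  · exact not_prime_of_ftest _ _ _ t3561
  · exact not_prime_of_ftest _ _ _ t3592
  · exact not_prime_of_ftest _ _ _ t3630
  · exact not_prime_of_ftest _ _ _ t3739
  · exact not_prime_of_ftest _ _ _ t3757
  · exact not_prime_of_ftest _ _ _ t4029
  · exact not_prime_of_ftest _ _ _ t4510
  · exact not_prime_of_ftest _ _ _ t4673

end Pool.Agent.Q256.TotA.P1
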