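import Pool.Agent.Q256.TotA.Def

set_option autoImplicit false

/-! Fermat tests to the base 2 (part 10). -/

namespace Pool.Agent.Q256.TotA.P10

open Pool.Agent.Q256.Tot

theorem t417 : ftest (NN 417) 12 2090 = true := by decide +kernel
theorem t620 : ftest (NN 620) 11 2032 = true := by decide +kernel
theorem t741 : ftest (NN 741) 12 3161 = true := by decide +kernel
theorem t1038 : ftest (NN 1038) 11 1534 = true := by decide +kernel
theorem t1105 : ftest (NN 1105) 13 4571 = true := by decide +kernel
theorem t1601 : ftest (NN 1601) 13 4152 = true := by decide +kernel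
theorem t1619 : ftest (NN 1619) 12 3956 = true := by decide +kernel
theorem t1773 : ftest (NN 1773) 12 2650 = true := by decide +kernel
theorem t1908 : ftest (NN 1908) 11 1079 = true := by decide +kernel
theorem t2138 : ftest (NN 2138) 11 1594 = true := by decide +kernel
theorem t2214 : ftest (NN 2214) 10 1001 = true := by decide +kernel
theorem t2367 : ftest (NN 2367) 11 1749 = true := by decide +kernel
theorem t2442 : ftest (NN 2442) 10 811 = true := by decide +kernel
theorem t2515 : ftest (NN 2515) 12 3116 = true := by decide +kernel
theorem t2551 : ftest (NN 2551) 12 2819 = true := by decide +kernel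
theorem t2783 : ftest (NN 2783) 12 2369 = true := by decide +kernel
theorem t2884 : ftest (NN 2884) 11 1319 = true := by decide +kernel
theorem t2888 : ftest (NN 2888) 11 1121 = true := by decide +kernel
theorem t3000 : ftest (NN 3000) 10 694 = true := by decide +kernel
theorem t3155 : ftest (NN 3155) 12 2276 = true := by decide +kernel
theorem t3255 : ftest (NN 3255) 11 1418 = true := by decide +kernel
theorem t3331 : ftest (NN 3331) 11 1861 = true := by decide +kernel
theorem t3336 : ftest (NN 3336) 10 527 = true := by decide +kernel
theorem t3375 : ftest (NN 3375) 11 1313 = true := by decide +kernel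
theorem t4104 : ftest (NN 4104) 9 307 = true := by decide +kernel
theorem t4389 : ftest (NN 4389) 9 327 = true := by decide +kernel

theorem all : ∀ k ∈ [417, 620, 741, 1038, 1105, 1601, 1619, 1773, 1908, 2138, 2214, 2367, 2442, 2515, 2551, 2783, 2884, 2888, 3000, 3155, 3255, 3331, 3336, 3375, 4104, 4389], ¬ (NN k).Prime := by
  intro k hk
  simp only [List.mem_cons, List.not_mem_nil, or_false] at hk
  rcases hk with rfl | rfl | rfl | rfl | rfl | rfl | rfl | rfl | rfl | rfl | rfl | rfl | rfl | rfl | rfl | rfl | rfl | rfl | rfl | rfl | rfl | rfl | rfl | rfl | rfl | rfl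
  · exact not_prime_of_ftest _ _ _ t417
  · exact not_prime_of_ftest _ _ _ t620
  · exact not_prime_of_ftest _ _ _ t741
  · exact not_prime_of_ftest _ _ _ t1038
  · exact not_prime_of_ftest _ _ _ t1105
  · exact not_prime_of_ftest _ _ _ t1601
  · exact not_prime_of_ftest _ _ _ t1619
  · exact not_prime_of_ftest _ _ _ t1773
  · exact not_prime_of_ftest _ _ _ t1908
  · exact not_prime_of_ftest _ _ _ t2138
  · exact not_prime_of_ftest _ _ _ t2214
  · exact not_prime_of_ftest _ _ _ t2367
  · exact not_prime_of_ftest _ _ _ t2442
  · exact not_prime_of_ftest _ _ _ t2515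
  · exact not_prime_of_ftest _ _ _ t2551
  · exact not_prime_of_ftest _ _ _ t2783
  · exact not_prime_of_ftest _ _ _ t2884
  · exact not_prime_of_ftest _ _ _ t2888
  · exact not_prime_of_ftest _ _ _ t3000
  · exact not_prime_of_ftest _ _ _ t3155
  · exact not_prime_of_ftest _ _ _ t3255
  · exact not_prime_of_ftest _ _ _ t3331
  · exact not_prime_of_ftest _ _ _ t3336
  · exact not_prime_of_ftest _ _ _ t3375
  · exact not_prime_of_ftest _ _ _ t4104
  · exact not_prime_of_ftest _ _ _ t4389

end Pool.Agent.Q256.TotA.P10
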