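import Pool.Agent.Q256.TotA.Def

set_option autoImplicit false

/-! Fermat tests to the base 2 (part 11). -/

namespace Pool.Agent.Q256.TotA.P11

open Pool.Agent.Q256.Tot

theorem t428 : ftest (NN 428) 12 2204 = true := by decide +kernel
theorem t470 : ftest (NN 470) 12 2358 = true := by decide +kernel
theorem t661 : ftest (NN 661) 13 4569 = true := by decide +kernel
theorem t753 : ftest (NN 753) 12 2710 = true := by decide +kernel
theorem t849 : ftest (NN 849) 12 3139 = true := by decide +kernel
theorem t1081 : ftest (NN 1081) 13 4158 = true := by decide +kernel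
theorem t1134 : ftest (NN 1134) 11 1340 = true := by decide +kernel
theorem t1213 : ftest (NN 1213) 12 3945 = true := by decide +kernel
theorem t1422 : ftest (NN 1422) 11 1048 = true := by decide +kernel
theorem t1440 : ftest (NN 1440) 11 1433 = true := by decide +kernel
theorem t1688 : ftest (NN 1688) 11 1930 = true := by decide +kernel
theorem t1787 : ftest (NN 1787) 12 3166 = true := by decide +kernel
theorem t1962 : ftest (NN 1962) 10 963 = true := by decide +kernel
theorem t1994 : ftest (NN 1994) 11 1645 = true := by decide +kernel
theorem t2188 : ftest (NN 2188) 11 1498 = true := by decide +kernel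
theorem t2318 : ftest (NN 2318) 11 1677 = true := by decide +kernel
theorem t2472 : ftest (NN 2472) 10 846 = true := by decide +kernel
theorem t2651 : ftest (NN 2651) 12 2764 = true := by decide +kernel
theorem t2661 : ftest (NN 2661) 11 1946 = true := by decide +kernel
theorem t2807 : ftest (NN 2807) 12 2188 = true := by decide +kernel
theorem t2907 : ftest (NN 2907) 11 1266 = true := by decide +kernel
theorem t2920 : ftest (NN 2920) 11 1198 = true := by decide +kernel
theorem t3228 : ftest (NN 3228) 10 717 = true := by decide +kernel
theorem t3600 : ftest (NN 3600) 9 473 = true := by decide +kernel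
theorem t4415 : ftest (NN 4415) 9 464 = true := by decide +kernel
theorem t4621 : ftest (NN 4621) 8 153 = true := by decide +kernel

theorem all : ∀ k ∈ [428, 470, 661, 753, 849, 1081, 1134, 1213, 1422, 1440, 1688, 1787, 1962, 1994, 2188, 2318, 2472, 2651, 2661, 2807, 2907, 2920, 3228, 3600, 4415, 4621], ¬ (NN k).Prime := by
  intro k hk
  simp only [List.mem_cons, List.not_mem_nil, or_false] at hk
  rcases hk with rfl | rfl | rfl | rfl | rfl | rfl | rfl | rfl | rfl | rfl | rfl | rfl | rfl | rfl | rfl | rfl | rfl | rfl | rfl | rfl | rfl | rfl | rfl | rfl | rfl | rfl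
  · exact not_prime_of_ftest _ _ _ t428
  · exact not_prime_of_ftest _ _ _ t470
  · exact not_prime_of_ftest _ _ _ t661
  · exact not_prime_of_ftest _ _ _ t753
  · exact not_prime_of_ftest _ _ _ t849
  · exact not_prime_of_ftest _ _ _ t1081
  · exact not_prime_of_ftest _ _ _ t1134
  · exact not_prime_of_ftest _ _ _ t1213
  · exact not_prime_of_ftest _ _ _ t1422
  · exact not_prime_of_ftest _ _ _ t1440
  · exact not_prime_of_ftest _ _ _ t1688
  · exact not_prime_of_ftest _ _ _ t1787
  · exact not_prime_of_ftest _ _ _ t1962
  · exact not_prime_of_ftest _ _ _ t1994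
  · exact not_prime_of_ftest _ _ _ t2188
  · exact not_prime_of_ftest _ _ _ t2318
  · exact not_prime_of_ftest _ _ _ t2472
  · exact not_prime_of_ftest _ _ _ t2651
  · exact not_prime_of_ftest _ _ _ t2661
  · exact not_prime_of_ftest _ _ _ t2807
  · exact not_prime_of_ftest _ _ _ t2907
  · exact not_prime_of_ftest _ _ _ t2920
  · exact not_prime_of_ftest _ _ _ t3228
  · exact not_prime_of_ftest _ _ _ t3600
  · exact not_prime_of_ftest _ _ _ t4415
  · exact not_prime_of_ftest _ _ _ t4621

end Pool.Agent.Q256.TotA.P11
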