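import Pool.Agent.Q256.TotA.Def

set_option autoImplicit false

/-! Fermat tests to the base 2 (part 12). -/

namespace Pool.Agent.Q256.TotA.P12

open Pool.Agent.Q256.Tot

theorem t82 : ftest (NN 82) 11 1429 = true := by decide +kernel
theorem t132 : ftest (NN 132) 10 1016 = true := by decide +kernel
theorem t658 : ftest (NN 658) 12 2360 = true := by decide +kernel
theorem t808 : ftest (NN 808) 12 2217 = true := by decide +kernel
theorem t1054 : ftest (NN 1054) 11 1959 = true := by decide +kernel
theorem t1059 : ftest (NN 1059) 12 2714 = true := by decide +kernel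
theorem t1115 : ftest (NN 1115) 13 4564 = true := by decide +kernel
theorem t1408 : ftest (NN 1408) 12 2166 = true := by decide +kernel
theorem t1553 : ftest (NN 1553) 13 4199 = true := by decide +kernel
theorem t1623 : ftest (NN 1623) 12 2752 = true := by decide +kernel
theorem t1735 : ftest (NN 1735) 12 3842 = true := by decide +kernel
theorem t1868 : ftest (NN 1868) 11 1938 = true := by decide +kernel
theorem t2071 : ftest (NN 2071) 12 3306 = true := by decide +kernel
theorem t2111 : ftest (NN 2111) 12 3082 = true := by decide +kernel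
theorem t2247 : ftest (NN 2247) 11 1671 = true := by decide +kernel
theorem t2816 : ftest (NN 2816) 11 1364 = true := by decide +kernel
theorem t2973 : ftest (NN 2973) 11 1500 = true := by decide +kernel
theorem t3040 : ftest (NN 3040) 11 1175 = true := by decide +kernel
theorem t3512 : ftest (NN 3512) 10 648 = true := by decide +kernel
theorem t3515 : ftest (NN 3515) 11 1650 = true := by decide +kernel
theorem t3637 : ftest (NN 3637) 11 1065 = true := by decide +kernel
theorem t3638 : ftest (NN 3638) 10 799 = true := by decide +kernel
theorem t3752 : ftest (NN 3752) 10 570 = true := by decide +kernel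
theorem t3799 : ftest (NN 3799) 11 1249 = true := by decide +kernel
theorem t3864 : ftest (NN 3864) 9 358 = true := by decide +kernel
theorem t4312 : ftest (NN 4312) 8 242 = true := by decide +kernel
theorem t4332 : ftest (NN 4332) 8 145 = true := by decide +kernel

theorem all : ∀ k ∈ [82, 132, 658, 808, 1054, 1059, 1115, 1408, 1553, 1623, 1735, 1868, 2071, 2111, 2247, 2816, 2973, 3040, 3512, 3515, 3637, 3638, 3752, 3799, 3864, 4312, 4332], ¬ (NN k).Prime := by
  intro k hk
  simp only [List.mem_cons, List.not_mem_nil, or_false] at hk
  rcases hk with rfl | rfl | rfl | rfl | rfl | rfl | rfl | rfl | rfl | rfl | rfl | rfl | rfl | rfl | rfl | rfl | rfl | rfl | rfl | rfl | rfl | rfl | rfl | rfl | rfl | rfl | rfl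
  · exact not_prime_of_ftest _ _ _ t82
  · exact not_prime_of_ftest _ _ _ t132
  · exact not_prime_of_ftest _ _ _ t658
  · exact not_prime_of_ftest _ _ _ t808
  · exact not_prime_of_ftest _ _ _ t1054
  · exact not_prime_of_ftest _ _ _ t1059
  · exact not_prime_of_ftest _ _ _ t1115
  · exact not_prime_of_ftest _ _ _ t1408
  · exact not_prime_of_ftest _ _ _ t1553
  · exact not_prime_of_ftest _ _ _ t1623
  · exact not_prime_of_ftest _ _ _ t1735
  · exact not_prime_of_ftest _ _ _ t1868
  · exact not_prime_of_ftest _ _ _ t2071
  · exact not_prime_of_ftest _ _ _ t2111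
  · exact not_prime_of_ftest _ _ _ t2247
  · exact not_prime_of_ftest _ _ _ t2816
  · exact not_prime_of_ftest _ _ _ t2973
  · exact not_prime_of_ftest _ _ _ t3040
  · exact not_prime_of_ftest _ _ _ t3512
  · exact not_prime_of_ftest _ _ _ t3515
  · exact not_prime_of_ftest _ _ _ t3637
  · exact not_prime_of_ftest _ _ _ t3638
  · exact not_prime_of_ftest _ _ _ t3752
  · exact not_prime_of_ftest _ _ _ t3799
  · exact not_prime_of_ftest _ _ _ t3864
  · exact not_prime_of_ftest _ _ _ t4312
  · exact not_prime_of_ftest _ _ _ t4332

end Pool.Agent.Q256.TotA.P12
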