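import Pool.Agent.Q256.TotA.Def

set_option autoImplicit false

/-! Fermat tests to the base 2 (part 13). -/

namespace Pool.Agent.Q256.TotA.P13

open Pool.Agent.Q256.Tot

theorem t72 : ftest (NN 72) 10 929 = true := by decide +kernel
theorem t202 : ftest (NN 202) 11 1718 = true := by decide +kernel
theorem t344 : ftest (NN 344) 12 2087 = true := by decide +kernel
theorem t813 : ftest (NN 813) 12 3148 = true := by decide +kernel
theorem t853 : ftest (NN 853) 13 4558 = true := by decide +kernel
theorem t1069 : ftest (NN 1069) 13 4227 = true := by decide +kernel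
theorem t1215 : ftest (NN 1215) 12 2552 = true := by decide +kernel
theorem t1407 : ftest (NN 1407) 11 2009 = true := by decide +kernel
theorem t1903 : ftest (NN 1903) 12 3838 = true := by decide +kernel
theorem t2103 : ftest (NN 2103) 12 2385 = true := by decide +kernel
theorem t2240 : ftest (NN 2240) 11 1603 = true := by decide +kernel
theorem t2293 : ftest (NN 2293) 12 2897 = true := by decide +kernel
theorem t2358 : ftest (NN 2358) 11 1098 = true := by decide +kernel
theorem t2392 : ftest (NN 2392) 11 1303 = true := by decide +kernel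
theorem t2455 : ftest (NN 2455) 12 3190 = true := by decide +kernel
theorem t2529 : ftest (NN 2529) 11 1900 = true := by decide +kernel
theorem t2697 : ftest (NN 2697) 11 1539 = true := by decide +kernel
theorem t3031 : ftest (NN 3031) 12 2291 = true := by decide +kernel
theorem t3176 : ftest (NN 3176) 11 1123 = true := by decide +kernel
theorem t3287 : ftest (NN 3287) 11 1402 = true := by decide +kernel
theorem t3351 : ftest (NN 3351) 11 1336 = true := by decide +kernel
theorem t3486 : ftest (NN 3486) 10 601 = true := by decide +kernel
theorem t3528 : ftest (NN 3528) 10 584 = true := by decide +kernel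
theorem t4115 : ftest (NN 4115) 10 910 = true := by decide +kernel
theorem t4162 : ftest (NN 4162) 9 289 = true := by decide +kernel
theorem t4317 : ftest (NN 4317) 9 327 = true := by decide +kernel
theorem t4689 : ftest (NN 4689) 5 31 = true := by decide +kernel

theorem all : ∀ k ∈ [72, 202, 344, 813, 853, 1069, 1215, 1407, 1903, 2103, 2240, 2293, 2358, 2392, 2455, 2529, 2697, 3031, 3176, 3287, 3351, 3486, 3528, 4115, 4162, 4317, 4689], ¬ (NN k).Prime := by
  intro k hk
  simp only [List.mem_cons, List.not_mem_nil, or_false] at hk
  rcases hk with rfl | rfl | rfl | rfl | rfl | rfl | rfl | rfl | rfl | rfl | rfl | rfl | rfl | rfl | rfl | rfl | rfl | rfl | rfl | rfl | rfl | rfl | rfl | rfl | rfl | rfl | rfl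
  · exact not_prime_of_ftest _ _ _ t72
  · exact not_prime_of_ftest _ _ _ t202
  · exact not_prime_of_ftest _ _ _ t344
  · exact not_prime_of_ftest _ _ _ t813
  · exact not_prime_of_ftest _ _ _ t853
  · exact not_prime_of_ftest _ _ _ t1069
  · exact not_prime_of_ftest _ _ _ t1215
  · exact not_prime_of_ftest _ _ _ t1407
  · exact not_prime_of_ftest _ _ _ t1903
  · exact not_prime_of_ftest _ _ _ t2103
  · exact not_prime_of_ftest _ _ _ t2240
  · exact not_prime_of_ftest _ _ _ t2293
  · exact not_prime_of_ftest _ _ _ t2358
  · exact not_prime_of_ftest _ _ _ t2392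
  · exact not_prime_of_ftest _ _ _ t2455
  · exact not_prime_of_ftest _ _ _ t2529
  · exact not_prime_of_ftest _ _ _ t2697
  · exact not_prime_of_ftest _ _ _ t3031
  · exact not_prime_of_ftest _ _ _ t3176
  · exact not_prime_of_ftest _ _ _ t3287
  · exact not_prime_of_ftest _ _ _ t3351
  · exact not_prime_of_ftest _ _ _ t3486
  · exact not_prime_of_ftest _ _ _ t3528
  · exact not_prime_of_ftest _ _ _ t4115
  · exact not_prime_of_ftest _ _ _ t4162
  · exact not_prime_of_ftest _ _ _ t4317
  · exact not_prime_of_ftest _ _ _ t4689

end Pool.Agent.Q256.TotA.P13
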