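import Pool.Agent.Q256.TotA.Def

set_option autoImplicit false

/-! Fermat tests to the base 2 (part 14). -/

namespace Pool.Agent.Q256.TotA.P14

open Pool.Agent.Q256.Tot

theorem t61 : ftest (NN 61) 12 3368 = true := by decide +kernel
theorem t301 : ftest (NN 301) 13 4552 = true := by decide +kernel
theorem t302 : ftest (NN 302) 11 1583 = true := by decide +kernel
theorem t303 : ftest (NN 303) 12 3032 = true := by decide +kernel
theorem t494 : ftest (NN 494) 11 2015 = true := by decide +kernel
theorem t496 : ftest (NN 496) 12 2365 = true := by decide +kernel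
theorem t501 : ftest (NN 501) 12 2665 = true := by decide +kernel
theorem t1043 : ftest (NN 1043) 13 4242 = true := by decide +kernel
theorem t1450 : ftest (NN 1450) 12 2143 = true := by decide +kernel
theorem t1739 : ftest (NN 1739) 12 3779 = true := by decide +kernel
theorem t1807 : ftest (NN 1807) 12 2814 = true := by decide +kernel
theorem t1954 : ftest (NN 1954) 11 1881 = true := by decide +kernel
theorem t2004 : ftest (NN 2004) 11 1235 = true := by decide +kernel
theorem t2204 : ftest (NN 2204) 11 1747 = true := by decide +kernel
theorem t2252 : ftest (NN 2252) 11 1203 = true := by decide +kernel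
theorem t2377 : ftest (NN 2377) 12 2221 = true := by decide +kernel
theorem t2676 : ftest (NN 2676) 10 854 = true := by decide +kernel
theorem t2700 : ftest (NN 2700) 10 958 = true := by decide +kernel
theorem t2770 : ftest (NN 2770) 11 1373 = true := by decide +kernel
theorem t2841 : ftest (NN 2841) 11 1549 = true := by decide +kernel
theorem t3110 : ftest (NN 3110) 11 1045 = true := by decide +kernel
theorem t3422 : ftest (NN 3422) 10 705 = true := by decide +kernel
theorem t3742 : ftest (NN 3742) 9 499 = true := by decide +kernel
theorem t3785 : ftest (NN 3785) 11 1391 = true := by decide +kernel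
theorem t4311 : ftest (NN 4311) 9 411 = true := by decide +kernel
theorem t4400 : ftest (NN 4400) 8 200 = true := by decide +kernel
theorem t4701 : ftest (NN 4701) 5 19 = true := by decide +kernel

theorem all : ∀ k ∈ [61, 301, 302, 303, 494, 496, 501, 1043, 1450, 1739, 1807, 1954, 2004, 2204, 2252, 2377, 2676, 2700, 2770, 2841, 3110, 3422, 3742, 3785, 4311, 4400, 4701], ¬ (NN k).Prime := by
  intro k hk
  simp only [List.mem_cons, List.not_mem_nil, or_false] at hk
  rcases hk with rfl | rfl | rfl | rfl | rfl | rfl | rfl | rfl | rfl | rfl | rfl | rfl | rfl | rfl | rfl | rfl | rfl | rfl | rfl | rfl | rfl | rfl | rfl | rfl | rfl | rfl | rfl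
  · exact not_prime_of_ftest _ _ _ t61
  · exact not_prime_of_ftest _ _ _ t301
  · exact not_prime_of_ftest _ _ _ t302
  · exact not_prime_of_ftest _ _ _ t303
  · exact not_prime_of_ftest _ _ _ t494
  · exact not_prime_of_ftest _ _ _ t496
  · exact not_prime_of_ftest _ _ _ t501
  · exact not_prime_of_ftest _ _ _ t1043
  · exact not_prime_of_ftest _ _ _ t1450
  · exact not_prime_of_ftest _ _ _ t1739
  · exact not_prime_of_ftest _ _ _ t1807
  · exact not_prime_of_ftest _ _ _ t1954
  · exact not_prime_of_ftest _ _ _ t2004
  · exact not_prime_of_ftest _ _ _ t2204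
  · exact not_prime_of_ftest _ _ _ t2252
  · exact not_prime_of_ftest _ _ _ t2377
  · exact not_prime_of_ftest _ _ _ t2676
  · exact not_prime_of_ftest _ _ _ t2700
  · exact not_prime_of_ftest _ _ _ t2770
  · exact not_prime_of_ftest _ _ _ t2841
  · exact not_prime_of_ftest _ _ _ t3110
  · exact not_prime_of_ftest _ _ _ t3422
  · exact not_prime_of_ftest _ _ _ t3742
  · exact not_prime_of_ftest _ _ _ t3785
  · exact not_prime_of_ftest _ _ _ t4311
  · exact not_prime_of_ftest _ _ _ t4400
  · exact not_prime_of_ftest _ _ _ t4701

end Pool.Agent.Q256.TotA.P14
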