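import Pool.Agent.Q256.TotA.Def

set_option autoImplicit false

/-! Fermat tests to the base 2 (part 16). -/

namespace Pool.Agent.Q256.TotA.P16

open Pool.Agent.Q256.Tot

theorem t126 : ftest (NN 126) 11 1335 = true := by decide +kernel
theorem t148 : ftest (NN 148) 12 2063 = true := by decide +kernel
theorem t193 : ftest (NN 193) 12 3683 = true := by decide +kernel
theorem t279 : ftest (NN 279) 12 3008 = true := by decide +kernel
theorem t283 : ftest (NN 283) 13 4304 = true := by decide +kernel
theorem t415 : ftest (NN 415) 13 4542 = true := by decide +kernel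
theorem t540 : ftest (NN 540) 11 1453 = true := by decide +kernel
theorem t758 : ftest (NN 758) 12 2369 = true := by decide +kernel
theorem t916 : ftest (NN 916) 12 2116 = true := by decide +kernel
theorem t921 : ftest (NN 921) 12 2660 = true := by decide +kernel
theorem t1010 : ftest (NN 1010) 12 2236 = true := by decide +kernel
theorem t1457 : ftest (NN 1457) 12 3427 = true := by decide +kernel
theorem t1802 : ftest (NN 1802) 11 1558 = true := by decide +kernel
theorem t2016 : ftest (NN 2016) 11 1098 = true := by decide +kernel
theorem t2078 : ftest (NN 2078) 11 1819 = true := by decide +kernel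
theorem t2086 : ftest (NN 2086) 11 1814 = true := by decide +kernel
theorem t2645 : ftest (NN 2645) 12 2814 = true := by decide +kernel
theorem t2796 : ftest (NN 2796) 10 911 = true := by decide +kernel
theorem t3217 : ftest (NN 3217) 11 1469 = true := by decide +kernel
theorem t3381 : ftest (NN 3381) 11 1302 = true := by decide +kernel
theorem t3454 : ftest (NN 3454) 10 929 = true := by decide +kernel
theorem t3791 : ftest (NN 3791) 11 1124 = true := by decide +kernel
theorem t3934 : ftest (NN 3934) 10 586 = true := by decide +kernel
theorem t4125 : ftest (NN 4125) 10 595 = true := by decide +kernel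
theorem t4142 : ftest (NN 4142) 9 337 = true := by decide +kernel
theorem t4455 : ftest (NN 4455) 9 267 = true := by decide +kernel
theorem t4599 : ftest (NN 4599) 7 122 = true := by decide +kernel

theorem all : ∀ k ∈ [126, 148, 193, 279, 283, 415, 540, 758, 916, 921, 1010, 1457, 1802, 2016, 2078, 2086, 2645, 2796, 3217, 3381, 3454, 3791, 3934, 4125, 4142, 4455, 4599], ¬ (NN k).Prime := by
  intro k hk
  simp only [List.mem_cons, List.not_mem_nil, or_false] at hk
  rcases hk with rfl | rfl | rfl | rfl | rfl | rfl | rfl | rfl | rfl | rfl | rfl | rfl | rfl | rfl | rfl | rfl | rfl | rfl | rfl | rfl | rfl | rfl | rfl | rfl | rfl | rfl | rfl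
  · exact not_prime_of_ftest _ _ _ t126
  · exact not_prime_of_ftest _ _ _ t148
  · exact not_prime_of_ftest _ _ _ t193
  · exact not_prime_of_ftest _ _ _ t279
  · exact not_prime_of_ftest _ _ _ t283
  · exact not_prime_of_ftest _ _ _ t415
  · exact not_prime_of_ftest _ _ _ t540
  · exact not_prime_of_ftest _ _ _ t758
  · exact not_prime_of_ftest _ _ _ t916
  · exact not_prime_of_ftest _ _ _ t921
  · exact not_prime_of_ftest _ _ _ t1010
  · exact not_prime_of_ftest _ _ _ t1457
  · exact not_prime_of_ftest _ _ _ t1802
  · exact not_prime_of_ftest _ _ _ t2016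
  · exact not_prime_of_ftest _ _ _ t2078
  · exact not_prime_of_ftest _ _ _ t2086
  · exact not_prime_of_ftest _ _ _ t2645
  · exact not_prime_of_ftest _ _ _ t2796
  · exact not_prime_of_ftest _ _ _ t3217
  · exact not_prime_of_ftest _ _ _ t3381
  · exact not_prime_of_ftest _ _ _ t3454
  · exact not_prime_of_ftest _ _ _ t3791
  · exact not_prime_of_ftest _ _ _ t3934
  · exact not_prime_of_ftest _ _ _ t4125
  · exact not_prime_of_ftest _ _ _ t4142
  · exact not_prime_of_ftest _ _ _ t4455
  · exact not_prime_of_ftest _ _ _ t4599

end Pool.Agent.Q256.TotA.P16
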