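import Pool.Agent.Q256.TotA.Def

set_option autoImplicit false

/-! Fermat tests to the base 2 (part 17). -/

namespace Pool.Agent.Q256.TotA.P17

open Pool.Agent.Q256.Tot

theorem t80 : ftest (NN 80) 11 1665 = true := by decide +kernel
theorem t253 : ftest (NN 253) 13 4314 = true := by decide +kernel
theorem t281 : ftest (NN 281) 13 4518 = true := by decide +kernel
theorem t552 : ftest (NN 552) 11 1258 = true := by decide +kernel
theorem t690 : ftest (NN 690) 11 1359 = true := by decide +kernel
theorem t796 : ftest (NN 796) 12 2169 = true := by decide +kernel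
theorem t824 : ftest (NN 824) 12 2360 = true := by decide +kernel
theorem t1304 : ftest (NN 1304) 12 2210 = true := by decide +kernel
theorem t1335 : ftest (NN 1335) 12 2929 = true := by decide +kernel
theorem t1337 : ftest (NN 1337) 12 3511 = true := by decide +kernel
theorem t1695 : ftest (NN 1695) 12 2704 = true := by decide +kernel
theorem t1804 : ftest (NN 1804) 11 1972 = true := by decide +kernel
theorem t1838 : ftest (NN 1838) 11 1660 = true := by decide +kernel
theorem t1886 : ftest (NN 1886) 11 1927 = true := by decide +kernel
theorem t2033 : ftest (NN 2033) 12 3693 = true := by decide +kernel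
theorem t2227 : ftest (NN 2227) 12 2770 = true := by decide +kernel
theorem t2394 : ftest (NN 2394) 11 1078 = true := by decide +kernel
theorem t2704 : ftest (NN 2704) 11 1437 = true := by decide +kernel
theorem t2757 : ftest (NN 2757) 11 1486 = true := by decide +kernel
theorem t3018 : ftest (NN 3018) 10 810 = true := by decide +kernel
theorem t3070 : ftest (NN 3070) 10 1008 = true := by decide +kernel
theorem t3805 : ftest (NN 3805) 11 1160 = true := by decide +kernel
theorem t3945 : ftest (NN 3945) 10 646 = true := by decide +kernel
theorem t4172 : ftest (NN 4172) 9 301 = true := by decide +kernel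
theorem t4339 : ftest (NN 4339) 10 577 = true := by decide +kernel
theorem t4371 : ftest (NN 4371) 9 327 = true := by decide +kernel

theorem all : ∀ k ∈ [80, 253, 281, 552, 690, 796, 824, 1304, 1335, 1337, 1695, 1804, 1838, 1886, 2033, 2227, 2394, 2704, 2757, 3018, 3070, 3805, 3945, 4172, 4339, 4371], ¬ (NN k).Prime := by
  intro k hk
  simp only [List.mem_cons, List.not_mem_nil, or_false] at hk
  rcases hk with rfl | rfl | rfl | rfl | rfl | rfl | rfl | rfl | rfl | rfl | rfl | rfl | rfl | rfl | rfl | rfl | rfl | rfl | rfl | rfl | rfl | rfl | rfl | rfl | rfl | rfl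
  · exact not_prime_of_ftest _ _ _ t80
  · exact not_prime_of_ftest _ _ _ t253
  · exact not_prime_of_ftest _ _ _ t281
  · exact not_prime_of_ftest _ _ _ t552
  · exact not_prime_of_ftest _ _ _ t690
  · exact not_prime_of_ftest _ _ _ t796
  · exact not_prime_of_ftest _ _ _ t824
  · exact not_prime_of_ftest _ _ _ t1304
  · exact not_prime_of_ftest _ _ _ t1335
  · exact not_prime_of_ftest _ _ _ t1337
  · exact not_prime_of_ftest _ _ _ t1695
  · exact not_prime_of_ftest _ _ _ t1804
  · exact not_prime_of_ftest _ _ _ t1838
  · exact not_prime_of_ftest _ _ _ t1886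
  · exact not_prime_of_ftest _ _ _ t2033
  · exact not_prime_of_ftest _ _ _ t2227
  · exact not_prime_of_ftest _ _ _ t2394
  · exact not_prime_of_ftest _ _ _ t2704
  · exact not_prime_of_ftest _ _ _ t2757
  · exact not_prime_of_ftest _ _ _ t3018
  · exact not_prime_of_ftest _ _ _ t3070
  · exact not_prime_of_ftest _ _ _ t3805
  · exact not_prime_of_ftest _ _ _ t3945
  · exact not_prime_of_ftest _ _ _ t4172
  · exact not_prime_of_ftest _ _ _ t4339
  · exact not_prime_of_ftest _ _ _ t4371

end Pool.Agent.Q256.TotA.P17
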