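import Pool.Agent.Q256.TotA.Def

set_option autoImplicit false

/-! Fermat tests to the base 2 (part 18). -/

namespace Pool.Agent.Q256.TotA.P18

open Pool.Agent.Q256.Tot

theorem t16 : ftest (NN 16) 11 1104 = true := by decide +kernel
theorem t89 : ftest (NN 89) 12 3636 = true := by decide +kernel
theorem t231 : ftest (NN 231) 12 2935 = true := by decide +kernel
theorem t379 : ftest (NN 379) 13 4500 = true := by decide +kernel
theorem t467 : ftest (NN 467) 12 3513 = true := by decide +kernel
theorem t586 : ftest (NN 586) 12 2116 = true := by decide +kernel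
theorem t679 : ftest (NN 679) 13 4376 = true := by decide +kernel
theorem t1284 : ftest (NN 1284) 11 1472 = true := by decide +kernel
theorem t1364 : ftest (NN 1364) 12 2063 = true := by decide +kernel
theorem t1432 : ftest (NN 1432) 11 1447 = true := by decide +kernel
theorem t1665 : ftest (NN 1665) 12 2724 = true := by decide +kernel
theorem t1680 : ftest (NN 1680) 11 1254 = true := by decide +kernel
theorem t2265 : ftest (NN 2265) 11 1806 = true := by decide +kernel
theorem t2301 : ftest (NN 2301) 12 2245 = true := by decide +kernel
theorem t2391 : ftest (NN 2391) 11 1819 = true := by decide +kernel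
theorem t2614 : ftest (NN 2614) 11 1363 = true := by decide +kernel
theorem t2821 : ftest (NN 2821) 12 2723 = true := by decide +kernel
theorem t3041 : ftest (NN 3041) 12 2373 = true := by decide +kernel
theorem t3134 : ftest (NN 3134) 11 1150 = true := by decide +kernel
theorem t3494 : ftest (NN 3494) 10 901 = true := by decide +kernel
theorem t3583 : ftest (NN 3583) 11 1559 = true := by decide +kernel
theorem t3866 : ftest (NN 3866) 10 632 = true := by decide +kernel
theorem t3918 : ftest (NN 3918) 9 394 = true := by decide +kernel
theorem t3988 : ftest (NN 3988) 10 548 = true := by decide +kernel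
theorem t4103 : ftest (NN 4103) 10 928 = true := by decide +kernel
theorem t4342 : ftest (NN 4342) 8 218 = true := by decide +kernel
theorem t4629 : ftest (NN 4629) 7 92 = true := by decide +kernel

theorem all : ∀ k ∈ [16, 89, 231, 379, 467, 586, 679, 1284, 1364, 1432, 1665, 1680, 2265, 2301, 2391, 2614, 2821, 3041, 3134, 3494, 3583, 3866, 3918, 3988, 4103, 4342, 4629], ¬ (NN k).Prime := by
  intro k hk
  simp only [List.mem_cons, List.not_mem_nil, or_false] at hk
  rcases hk with rfl | rfl | rfl | rfl | rfl | rfl | rfl | rfl | rfl | rfl | rfl | rfl | rfl | rfl | rfl | rfl | rfl | rfl | rfl | rfl | rfl | rfl | rfl | rfl | rfl | rfl | rfl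
  · exact not_prime_of_ftest _ _ _ t16
  · exact not_prime_of_ftest _ _ _ t89
  · exact not_prime_of_ftest _ _ _ t231
  · exact not_prime_of_ftest _ _ _ t379
  · exact not_prime_of_ftest _ _ _ t467
  · exact not_prime_of_ftest _ _ _ t586
  · exact not_prime_of_ftest _ _ _ t679
  · exact not_prime_of_ftest _ _ _ t1284
  · exact not_prime_of_ftest _ _ _ t1364
  · exact not_prime_of_ftest _ _ _ t1432
  · exact not_prime_of_ftest _ _ _ t1665
  · exact not_prime_of_ftest _ _ _ t1680
  · exact not_prime_of_ftest _ _ _ t2265
  · exact not_prime_of_ftest _ _ _ t2301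
  · exact not_prime_of_ftest _ _ _ t2391
  · exact not_prime_of_ftest _ _ _ t2614
  · exact not_prime_of_ftest _ _ _ t2821
  · exact not_prime_of_ftest _ _ _ t3041
  · exact not_prime_of_ftest _ _ _ t3134
  · exact not_prime_of_ftest _ _ _ t3494
  · exact not_prime_of_ftest _ _ _ t3583
  · exact not_prime_of_ftest _ _ _ t3866
  · exact not_prime_of_ftest _ _ _ t3918
  · exact not_prime_of_ftest _ _ _ t3988
  · exact not_prime_of_ftest _ _ _ t4103
  · exact not_prime_of_ftest _ _ _ t4342
  · exact not_prime_of_ftest _ _ _ t4629

end Pool.Agent.Q256.TotA.P18
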