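import Pool.Agent.Q256.TotA.Def

set_option autoImplicit false

/-! Fermat tests to the base 2 (part 19). -/

namespace Pool.Agent.Q256.TotA.P19

open Pool.Agent.Q256.Tot

theorem t289 : ftest (NN 289) 12 3681 = true := by decide +kernel
theorem t592 : ftest (NN 592) 11 1603 = true := by decide +kernel
theorem t786 : ftest (NN 786) 11 1540 = true := by decide +kernel
theorem t923 : ftest (NN 923) 13 4483 = true := by decide +kernel
theorem t1060 : ftest (NN 1060) 12 2300 = true := by decide +kernel
theorem t1133 : ftest (NN 1133) 13 4384 = true := by decide +kernel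
theorem t1332 : ftest (NN 1332) 11 1163 = true := by decide +kernel
theorem t1374 : ftest (NN 1374) 11 1408 = true := by decide +kernel
theorem t1551 : ftest (NN 1551) 12 2385 = true := by decide +kernel
theorem t1766 : ftest (NN 1766) 11 1991 = true := by decide +kernel
theorem t1874 : ftest (NN 1874) 11 1914 = true := by decide +kernel
theorem t1896 : ftest (NN 1896) 11 1275 = true := by decide +kernel
theorem t2018 : ftest (NN 2018) 11 1713 = true := by decide +kernel
theorem t2147 : ftest (NN 2147) 12 2823 = true := by decide +kernel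
theorem t2153 : ftest (NN 2153) 12 3040 = true := by decide +kernel
theorem t2305 : ftest (NN 2305) 12 3374 = true := by decide +kernel
theorem t2765 : ftest (NN 2765) 12 2625 = true := by decide +kernel
theorem t3120 : ftest (NN 3120) 10 767 = true := by decide +kernel
theorem t3218 : ftest (NN 3218) 11 1073 = true := by decide +kernel
theorem t3293 : ftest (NN 3293) 12 2086 = true := by decide +kernel
theorem t3304 : ftest (NN 3304) 11 1035 = true := by decide +kernel
theorem t3372 : ftest (NN 3372) 10 528 = true := by decide +kernel
theorem t3665 : ftest (NN 3665) 11 1332 = true := by decide +kernel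
theorem t4022 : ftest (NN 4022) 9 360 = true := by decide +kernel
theorem t4265 : ftest (NN 4265) 10 688 = true := by decide +kernel
theorem t4348 : ftest (NN 4348) 8 242 = true := by decide +kernel
theorem t4442 : ftest (NN 4442) 8 146 = true := by decide +kernel

theorem all : ∀ k ∈ [289, 592, 786, 923, 1060, 1133, 1332, 1374, 1551, 1766, 1874, 1896, 2018, 2147, 2153, 2305, 2765, 3120, 3218, 3293, 3304, 3372, 3665, 4022, 4265, 4348, 4442], ¬ (NN k).Prime := by
  intro k hk
  simp only [List.mem_cons, List.not_mem_nil, or_false] at hk
  rcases hk with rfl | rfl | rfl | rfl | rfl | rfl | rfl | rfl | rfl | rfl | rfl | rfl | rfl | rfl | rfl | rfl | rfl | rfl | rfl | rfl | rfl | rfl | rfl | rfl | rfl | rfl | rfl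
  · exact not_prime_of_ftest _ _ _ t289
  · exact not_prime_of_ftest _ _ _ t592
  · exact not_prime_of_ftest _ _ _ t786
  · exact not_prime_of_ftest _ _ _ t923
  · exact not_prime_of_ftest _ _ _ t1060
  · exact not_prime_of_ftest _ _ _ t1133
  · exact not_prime_of_ftest _ _ _ t1332
  · exact not_prime_of_ftest _ _ _ t1374
  · exact not_prime_of_ftest _ _ _ t1551
  · exact not_prime_of_ftest _ _ _ t1766
  · exact not_prime_of_ftest _ _ _ t1874
  · exact not_prime_of_ftest _ _ _ t1896
  · exact not_prime_of_ftest _ _ _ t2018
  · exact not_prime_of_ftest _ _ _ t2147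
  · exact not_prime_of_ftest _ _ _ t2153
  · exact not_prime_of_ftest _ _ _ t2305
  · exact not_prime_of_ftest _ _ _ t2765
  · exact not_prime_of_ftest _ _ _ t3120
  · exact not_prime_of_ftest _ _ _ t3218
  · exact not_prime_of_ftest _ _ _ t3293
  · exact not_prime_of_ftest _ _ _ t3304
  · exact not_prime_of_ftest _ _ _ t3372
  · exact not_prime_of_ftest _ _ _ t3665
  · exact not_prime_of_ftest _ _ _ t4022
  · exact not_prime_of_ftest _ _ _ t4265
  · exact not_prime_of_ftest _ _ _ t4348
  · exact not_prime_of_ftest _ _ _ t4442

end Pool.Agent.Q256.TotA.P19
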