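import Pool.Agent.Q256.TotA.Def

set_option autoImplicit false

/-! Fermat tests to the base 2 (part 2). -/

namespace Pool.Agent.Q256.TotA.P2

open Pool.Agent.Q256.Tot

theorem t37 : ftest (NN 37) 12 2457 = true := by decide +kernel
theorem t351 : ftest (NN 351) 12 2919 = true := by decide +kernel
theorem t386 : ftest (NN 386) 12 2321 = true := by decide +kernel
theorem t591 : ftest (NN 591) 12 2984 = true := by decide +kernel
theorem t715 : ftest (NN 715) 13 4750 = true := by decide +kernel
theorem t917 : ftest (NN 917) 12 3741 = true := by decide +kernel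
theorem t1302 : ftest (NN 1302) 11 1118 = true := by decide +kernel
theorem t1525 : ftest (NN 1525) 12 4014 = true := by decide +kernel
theorem t1702 : ftest (NN 1702) 11 1611 = true := by decide +kernel
theorem t1732 : ftest (NN 1732) 11 1421 = true := by decide +kernel
theorem t1776 : ftest (NN 1776) 11 1323 = true := by decide +kernel
theorem t1912 : ftest (NN 1912) 11 1527 = true := by decide +kernel
theorem t2055 : ftest (NN 2055) 12 2081 = true := by decide +kernel
theorem t2067 : ftest (NN 2067) 11 1917 = true := by decide +kernel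
theorem t2081 : ftest (NN 2081) 12 3423 = true := by decide +kernel
theorem t2356 : ftest (NN 2356) 11 1311 = true := by decide +kernel
theorem t2512 : ftest (NN 2512) 11 1085 = true := by decide +kernel
theorem t2619 : ftest (NN 2619) 11 1988 = true := by decide +kernel
theorem t2709 : ftest (NN 2709) 11 1711 = true := by decide +kernel
theorem t3025 : ftest (NN 3025) 12 2452 = true := by decide +kernel
theorem t3448 : ftest (NN 3448) 10 741 = true := by decide +kernel
theorem t3464 : ftest (NN 3464) 10 847 = true := by decide +kernel
theorem t4081 : ftest (NN 4081) 10 960 = true := by decide +kernel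
theorem t4190 : ftest (NN 4190) 9 325 = true := by decide +kernel
theorem t4202 : ftest (NN 4202) 9 289 = true := by decide +kernel
theorem t4409 : ftest (NN 4409) 9 473 = true := by decide +kernel
theorem t4590 : ftest (NN 4590) 6 61 = true := by decide +kernel

theorem all : ∀ k ∈ [37, 351, 386, 591, 715, 917, 1302, 1525, 1702, 1732, 1776, 1912, 2055, 2067, 2081, 2356, 2512, 2619, 2709, 3025, 3448, 3464, 4081, 4190, 4202, 4409, 4590], ¬ (NN k).Prime := by
  intro k hk
  simp only [List.mem_cons, List.not_mem_nil, or_false] at hk
  rcases hk with rfl | rfl | rfl | rfl | rfl | rfl | rfl | rfl | rfl | rfl | rfl | rfl | rfl | rfl | rfl | rfl | rfl | rfl | rfl | rfl | rfl | rfl | rfl | rfl | rfl | rfl | rfl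
  · exact not_prime_of_ftest _ _ _ t37
  · exact not_prime_of_ftest _ _ _ t351
  · exact not_prime_of_ftest _ _ _ t386
  · exact not_prime_of_ftest _ _ _ t591
  · exact not_prime_of_ftest _ _ _ t715
  · exact not_prime_of_ftest _ _ _ t917
  · exact not_prime_of_ftest _ _ _ t1302
  · exact not_prime_of_ftest _ _ _ t1525
  · exact not_prime_of_ftest _ _ _ t1702
  · exact not_prime_of_ftest _ _ _ t1732
  · exact not_prime_of_ftest _ _ _ t1776
  · exact not_prime_of_ftest _ _ _ t1912
  · exact not_prime_of_ftest _ _ _ t2055
  · exact not_prime_of_ftest _ _ _ t2067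
  · exact not_prime_of_ftest _ _ _ t2081
  · exact not_prime_of_ftest _ _ _ t2356
  · exact not_prime_of_ftest _ _ _ t2512
  · exact not_prime_of_ftest _ _ _ t2619
  · exact not_prime_of_ftest _ _ _ t2709
  · exact not_prime_of_ftest _ _ _ t3025
  · exact not_prime_of_ftest _ _ _ t3448
  · exact not_prime_of_ftest _ _ _ t3464
  · exact not_prime_of_ftest _ _ _ t4081
  · exact not_prime_of_ftest _ _ _ t4190
  · exact not_prime_of_ftest _ _ _ t4202
  · exact not_prime_of_ftest _ _ _ t4409
  · exact not_prime_of_ftest _ _ _ t4590

end Pool.Agent.Q256.TotA.P2
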