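import Pool.Agent.Q256.TotA.Def

set_option autoImplicit false

/-! Fermat tests to the base 2 (part 20). -/

namespace Pool.Agent.Q256.TotA.P20

open Pool.Agent.Q256.Tot

theorem t63 : ftest (NN 63) 12 2329 = true := by decide +kernel
theorem t153 : ftest (NN 153) 12 2766 = true := by decide +kernel
theorem t382 : ftest (NN 382) 11 1545 = true := by decide +kernel
theorem t455 : ftest (NN 455) 13 4417 = true := by decide +kernel
theorem t532 : ftest (NN 532) 11 1894 = true := by decide +kernel
theorem t1033 : ftest (NN 1033) 12 3606 = true := by decide +kernel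
theorem t1097 : ftest (NN 1097) 12 3536 = true := by decide +kernel
theorem t1253 : ftest (NN 1253) 13 4462 = true := by decide +kernel
theorem t1311 : ftest (NN 1311) 12 2937 = true := by decide +kernel
theorem t1610 : ftest (NN 1610) 12 2067 = true := by decide +kernel
theorem t1712 : ftest (NN 1712) 11 1354 = true := by decide +kernel
theorem t1824 : ftest (NN 1824) 11 1073 = true := by decide +kernel
theorem t2027 : ftest (NN 2027) 12 2308 = true := by decide +kernel
theorem t2056 : ftest (NN 2056) 11 1734 = true := by decide +kernel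
theorem t2287 : ftest (NN 2287) 12 2712 = true := by decide +kernel
theorem t2343 : ftest (NN 2343) 11 2016 = true := by decide +kernel
theorem t2470 : ftest (NN 2470) 11 1584 = true := by decide +kernel
theorem t2636 : ftest (NN 2636) 11 1262 = true := by decide +kernel
theorem t2822 : ftest (NN 2822) 11 1032 = true := by decide +kernel
theorem t2940 : ftest (NN 2940) 10 778 = true := by decide +kernel
theorem t3602 : ftest (NN 3602) 10 568 = true := by decide +kernel
theorem t3737 : ftest (NN 3737) 11 1164 = true := by decide +kernel
theorem t3781 : ftest (NN 3781) 11 1397 = true := by decide +kernel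
theorem t3963 : ftest (NN 3963) 10 658 = true := by decide +kernel
theorem t3966 : ftest (NN 3966) 9 323 = true := by decide +kernel
theorem t4487 : ftest (NN 4487) 9 280 = true := by decide +kernel
theorem t4598 : ftest (NN 4598) 7 92 = true := by decide +kernel

theorem all : ∀ k ∈ [63, 153, 382, 455, 532, 1033, 1097, 1253, 1311, 1610, 1712, 1824, 2027, 2056, 2287, 2343, 2470, 2636, 2822, 2940, 3602, 3737, 3781, 3963, 3966, 4487, 4598], ¬ (NN k).Prime := by
  intro k hk
  simp only [List.mem_cons, List.not_mem_nil, or_false] at hk
  rcases hk with rfl | rfl | rfl | rfl | rfl | rfl | rfl | rfl | rfl | rfl | rfl | rfl | rfl | rfl | rfl | rfl | rfl | rfl | rfl | rfl | rfl | rfl | rfl | rfl | rfl | rfl | rfl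
  · exact not_prime_of_ftest _ _ _ t63
  · exact not_prime_of_ftest _ _ _ t153
  · exact not_prime_of_ftest _ _ _ t382
  · exact not_prime_of_ftest _ _ _ t455
  · exact not_prime_of_ftest _ _ _ t532
  · exact not_prime_of_ftest _ _ _ t1033
  · exact not_prime_of_ftest _ _ _ t1097
  · exact not_prime_of_ftest _ _ _ t1253
  · exact not_prime_of_ftest _ _ _ t1311
  · exact not_prime_of_ftest _ _ _ t1610
  · exact not_prime_of_ftest _ _ _ t1712
  · exact not_prime_of_ftest _ _ _ t1824
  · exact not_prime_of_ftest _ _ _ t2027
  · exact not_prime_of_ftest _ _ _ t2056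
  · exact not_prime_of_ftest _ _ _ t2287
  · exact not_prime_of_ftest _ _ _ t2343
  · exact not_prime_of_ftest _ _ _ t2470
  · exact not_prime_of_ftest _ _ _ t2636
  · exact not_prime_of_ftest _ _ _ t2822
  · exact not_prime_of_ftest _ _ _ t2940
  · exact not_prime_of_ftest _ _ _ t3602
  · exact not_prime_of_ftest _ _ _ t3737
  · exact not_prime_of_ftest _ _ _ t3781
  · exact not_prime_of_ftest _ _ _ t3963
  · exact not_prime_of_ftest _ _ _ t3966
  · exact not_prime_of_ftest _ _ _ t4487
  · exact not_prime_of_ftest _ _ _ t4598

end Pool.Agent.Q256.TotA.P20
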