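import Pool.Agent.Q256.TotA.Def

set_option autoImplicit false

/-! Fermat tests to the base 2 (part 21). -/

namespace Pool.Agent.Q256.TotA.P21

open Pool.Agent.Q256.Tot

theorem t78 : ftest (NN 78) 11 1192 = true := by decide +kernel
theorem t134 : ftest (NN 134) 11 1911 = true := by decide +kernel
theorem t162 : ftest (NN 162) 11 1059 = true := by decide +kernel
theorem t625 : ftest (NN 625) 13 4460 = true := by decide +kernel
theorem t704 : ftest (NN 704) 11 1987 = true := by decide +kernel
theorem t790 : ftest (NN 790) 12 2364 = true := by decide +kernel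
theorem t1280 : ftest (NN 1280) 12 2220 = true := by decide +kernel
theorem t1309 : ftest (NN 1309) 13 4417 = true := by decide +kernel
theorem t1462 : ftest (NN 1462) 11 1704 = true := by decide +kernel
theorem t1545 : ftest (NN 1545) 12 2797 = true := by decide +kernel
theorem t1975 : ftest (NN 1975) 12 3613 = true := by decide +kernel
theorem t2102 : ftest (NN 2102) 11 1435 = true := by decide +kernel
theorem t2183 : ftest (NN 2183) 12 3520 = true := by decide +kernel
theorem t2251 : ftest (NN 2251) 12 2941 = true := by decide +kernel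
theorem t2291 : ftest (NN 2291) 12 2679 = true := by decide +kernel
theorem t2415 : ftest (NN 2415) 12 2158 = true := by decide +kernel
theorem t2426 : ftest (NN 2426) 11 1350 = true := by decide +kernel
theorem t2462 : ftest (NN 2462) 11 1262 = true := by decide +kernel
theorem t2620 : ftest (NN 2620) 11 1491 = true := by decide +kernel
theorem t2692 : ftest (NN 2692) 10 958 = true := by decide +kernel
theorem t3033 : ftest (NN 3033) 11 1626 = true := by decide +kernel
theorem t3262 : ftest (NN 3262) 10 841 = true := by decide +kernel
theorem t3678 : ftest (NN 3678) 9 498 = true := by decide +kernel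
theorem t3807 : ftest (NN 3807) 10 714 = true := by decide +kernel
theorem t4433 : ftest (NN 4433) 9 412 = true := by decide +kernel
theorem t4547 : ftest (NN 4547) 8 183 = true := by decide +kernel
theorem t4657 : ftest (NN 4657) 7 74 = true := by decide +kernel

theorem all : ∀ k ∈ [78, 134, 162, 625, 704, 790, 1280, 1309, 1462, 1545, 1975, 2102, 2183, 2251, 2291, 2415, 2426, 2462, 2620, 2692, 3033, 3262, 3678, 3807, 4433, 4547, 4657], ¬ (NN k).Prime := by
  intro k hk
  simp only [List.mem_cons, List.not_mem_nil, or_false] at hk
  rcases hk with rfl | rfl | rfl | rfl | rfl | rfl | rfl | rfl | rfl | rfl | rfl | rfl | rfl | rfl | rfl | rfl | rfl | rfl | rfl | rfl | rfl | rfl | rfl | rfl | rfl | rfl | rfl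
  · exact not_prime_of_ftest _ _ _ t78
  · exact not_prime_of_ftest _ _ _ t134
  · exact not_prime_of_ftest _ _ _ t162
  · exact not_prime_of_ftest _ _ _ t625
  · exact not_prime_of_ftest _ _ _ t704
  · exact not_prime_of_ftest _ _ _ t790
  · exact not_prime_of_ftest _ _ _ t1280
  · exact not_prime_of_ftest _ _ _ t1309
  · exact not_prime_of_ftest _ _ _ t1462
  · exact not_prime_of_ftest _ _ _ t1545
  · exact not_prime_of_ftest _ _ _ t1975
  · exact not_prime_of_ftest _ _ _ t2102
  · exact not_prime_of_ftest _ _ _ t2183
  · exact not_prime_of_ftest _ _ _ t2251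
  · exact not_prime_of_ftest _ _ _ t2291
  · exact not_prime_of_ftest _ _ _ t2415
  · exact not_prime_of_ftest _ _ _ t2426
  · exact not_prime_of_ftest _ _ _ t2462
  · exact not_prime_of_ftest _ _ _ t2620
  · exact not_prime_of_ftest _ _ _ t2692
  · exact not_prime_of_ftest _ _ _ t3033
  · exact not_prime_of_ftest _ _ _ t3262
  · exact not_prime_of_ftest _ _ _ t3678
  · exact not_prime_of_ftest _ _ _ t3807
  · exact not_prime_of_ftest _ _ _ t4433
  · exact not_prime_of_ftest _ _ _ t4547
  · exact not_prime_of_ftest _ _ _ t4657

end Pool.Agent.Q256.TotA.P21
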