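import Pool.Agent.Q256.TotA.Def

set_option autoImplicit false

/-! Fermat tests to the base 2 (part 22). -/

namespace Pool.Agent.Q256.TotA.P22

open Pool.Agent.Q256.Tot

theorem t81 : ftest (NN 81) 11 1831 = true := by decide +kernel
theorem t129 : ftest (NN 129) 12 2687 = true := by decide +kernel
theorem t764 : ftest (NN 764) 12 2369 = true := by decide +kernel
theorem t960 : ftest (NN 960) 11 1338 = true := by decide +kernel
theorem t1039 : ftest (NN 1039) 13 4420 = true := by decide +kernel
theorem t1087 : ftest (NN 1087) 12 3662 = true := by decide +kernel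
theorem t1136 : ftest (NN 1136) 12 2056 = true := by decide +kernel
theorem t1149 : ftest (NN 1149) 12 3020 = true := by decide +kernel
theorem t1210 : ftest (NN 1210) 12 2243 = true := by decide +kernel
theorem t1265 : ftest (NN 1265) 13 4453 = true := by decide +kernel
theorem t1447 : ftest (NN 1447) 12 3413 = true := by decide +kernel
theorem t1554 : ftest (NN 1554) 11 1273 = true := by decide +kernel
theorem t1767 : ftest (NN 1767) 12 2115 = true := by decide +kernel
theorem t1774 : ftest (NN 1774) 11 1781 = true := by decide +kernel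
theorem t1842 : ftest (NN 1842) 11 1042 = true := by decide +kernel
theorem t2083 : ftest (NN 2083) 12 2779 = true := by decide +kernel
theorem t2366 : ftest (NN 2366) 11 1514 = true := by decide +kernel
theorem t2517 : ftest (NN 2517) 11 1424 = true := by decide +kernel
theorem t3207 : ftest (NN 3207) 11 1165 = true := by decide +kernel
theorem t3661 : ftest (NN 3661) 11 1569 = true := by decide +kernel
theorem t3694 : ftest (NN 3694) 10 759 = true := by decide +kernel
theorem t3721 : ftest (NN 3721) 11 1068 = true := by decide +kernel
theorem t4011 : ftest (NN 4011) 10 701 = true := by decide +kernel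
theorem t4056 : ftest (NN 4056) 9 324 = true := by decide +kernel
theorem t4110 : ftest (NN 4110) 9 289 = true := by decide +kernel
theorem t4373 : ftest (NN 4373) 10 527 = true := by decide +kernel
theorem t4688 : ftest (NN 4688) 5 25 = true := by decide +kernel

theorem all : ∀ k ∈ [81, 129, 764, 960, 1039, 1087, 1136, 1149, 1210, 1265, 1447, 1554, 1767, 1774, 1842, 2083, 2366, 2517, 3207, 3661, 3694, 3721, 4011, 4056, 4110, 4373, 4688], ¬ (NN k).Prime := by
  intro k hk
  simp only [List.mem_cons, List.not_mem_nil, or_false] at hk
  rcases hk with rfl | rfl | rfl | rfl | rfl | rfl | rfl | rfl | rfl | rfl | rfl | rfl | rfl | rfl | rfl | rfl | rfl | rfl | rfl | rfl | rfl | rfl | rfl | rfl | rfl | rfl | rfl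
  · exact not_prime_of_ftest _ _ _ t81
  · exact not_prime_of_ftest _ _ _ t129
  · exact not_prime_of_ftest _ _ _ t764
  · exact not_prime_of_ftest _ _ _ t960
  · exact not_prime_of_ftest _ _ _ t1039
  · exact not_prime_of_ftest _ _ _ t1087
  · exact not_prime_of_ftest _ _ _ t1136
  · exact not_prime_of_ftest _ _ _ t1149
  · exact not_prime_of_ftest _ _ _ t1210
  · exact not_prime_of_ftest _ _ _ t1265
  · exact not_prime_of_ftest _ _ _ t1447
  · exact not_prime_of_ftest _ _ _ t1554
  · exact not_prime_of_ftest _ _ _ t1767
  · exact not_prime_of_ftest _ _ _ t1774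
  · exact not_prime_of_ftest _ _ _ t1842
  · exact not_prime_of_ftest _ _ _ t2083
  · exact not_prime_of_ftest _ _ _ t2366
  · exact not_prime_of_ftest _ _ _ t2517
  · exact not_prime_of_ftest _ _ _ t3207
  · exact not_prime_of_ftest _ _ _ t3661
  · exact not_prime_of_ftest _ _ _ t3694
  · exact not_prime_of_ftest _ _ _ t3721
  · exact not_prime_of_ftest _ _ _ t4011
  · exact not_prime_of_ftest _ _ _ t4056
  · exact not_prime_of_ftest _ _ _ t4110
  · exact not_prime_of_ftest _ _ _ t4373
  · exact not_prime_of_ftest _ _ _ t4688

end Pool.Agent.Q256.TotA.P22
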