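import Pool.Agent.Q256.TotA.Def

set_option autoImplicit false

/-! Fermat tests to the base 2 (part 23). -/

namespace Pool.Agent.Q256.TotA.P23

open Pool.Agent.Q256.Tot

theorem t13 : ftest (NN 13) 12 2102 = true := by decide +kernel
theorem t156 : ftest (NN 156) 11 1386 = true := by decide +kernel
theorem t323 : ftest (NN 323) 13 4446 = true := by decide +kernel
theorem t724 : ftest (NN 724) 12 2374 = true := by decide +kernel
theorem t752 : ftest (NN 752) 11 1893 = true := by decide +kernel
theorem t827 : ftest (NN 827) 12 3490 = true := by decide +kernel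
theorem t1073 : ftest (NN 1073) 13 4431 = true := by decide +kernel
theorem t1127 : ftest (NN 1127) 12 3641 = true := by decide +kernel
theorem t1148 : ftest (NN 1148) 12 2270 = true := by decide +kernel
theorem t1424 : ftest (NN 1424) 11 2012 = true := by decide +kernel
theorem t1584 : ftest (NN 1584) 11 1388 = true := by decide +kernel
theorem t1686 : ftest (NN 1686) 11 1180 = true := by decide +kernel
theorem t2017 : ftest (NN 2017) 12 2965 = true := by decide +kernel
theorem t2224 : ftest (NN 2224) 11 1735 = true := by decide +kernel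
theorem t2346 : ftest (NN 2346) 10 1008 = true := by decide +kernel
theorem t2400 : ftest (NN 2400) 11 1062 = true := by decide +kernel
theorem t2419 : ftest (NN 2419) 12 2715 = true := by decide +kernel
theorem t2450 : ftest (NN 2450) 11 1577 = true := by decide +kernel
theorem t2599 : ftest (NN 2599) 12 2723 = true := by decide +kernel
theorem t2955 : ftest (NN 2955) 11 1557 = true := by decide +kernel
theorem t3231 : ftest (NN 3231) 11 1225 = true := by decide +kernel
theorem t3246 : ftest (NN 3246) 10 700 = true := by decide +kernel
theorem t3640 : ftest (NN 3640) 10 799 = true := by decide +kernel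
theorem t3684 : ftest (NN 3684) 9 510 = true := by decide +kernel
theorem t4082 : ftest (NN 4082) 9 384 = true := by decide +kernel
theorem t4565 : ftest (NN 4565) 8 238 = true := by decide +kernel
theorem t4696 : ftest (NN 4696) 5 19 = true := by decide +kernel

theorem all : ∀ k ∈ [13, 156, 323, 724, 752, 827, 1073, 1127, 1148, 1424, 1584, 1686, 2017, 2224, 2346, 2400, 2419, 2450, 2599, 2955, 3231, 3246, 3640, 3684, 4082, 4565, 4696], ¬ (NN k).Prime := by
  intro k hk
  simp only [List.mem_cons, List.not_mem_nil, or_false] at hk
  rcases hk with rfl | rfl | rfl | rfl | rfl | rfl | rfl | rfl | rfl | rfl | rfl | rfl | rfl | rfl | rfl | rfl | rfl | rfl | rfl | rfl | rfl | rfl | rfl | rfl | rfl | rfl | rfl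
  · exact not_prime_of_ftest _ _ _ t13
  · exact not_prime_of_ftest _ _ _ t156
  · exact not_prime_of_ftest _ _ _ t323
  · exact not_prime_of_ftest _ _ _ t724
  · exact not_prime_of_ftest _ _ _ t752
  · exact not_prime_of_ftest _ _ _ t827
  · exact not_prime_of_ftest _ _ _ t1073
  · exact not_prime_of_ftest _ _ _ t1127
  · exact not_prime_of_ftest _ _ _ t1148
  · exact not_prime_of_ftest _ _ _ t1424
  · exact not_prime_of_ftest _ _ _ t1584
  · exact not_prime_of_ftest _ _ _ t1686
  · exact not_prime_of_ftest _ _ _ t2017
  · exact not_prime_of_ftest _ _ _ t2224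
  · exact not_prime_of_ftest _ _ _ t2346
  · exact not_prime_of_ftest _ _ _ t2400
  · exact not_prime_of_ftest _ _ _ t2419
  · exact not_prime_of_ftest _ _ _ t2450
  · exact not_prime_of_ftest _ _ _ t2599
  · exact not_prime_of_ftest _ _ _ t2955
  · exact not_prime_of_ftest _ _ _ t3231
  · exact not_prime_of_ftest _ _ _ t3246
  · exact not_prime_of_ftest _ _ _ t3640
  · exact not_prime_of_ftest _ _ _ t3684
  · exact not_prime_of_ftest _ _ _ t4082
  · exact not_prime_of_ftest _ _ _ t4565
  · exact not_prime_of_ftest _ _ _ t4696

end Pool.Agent.Q256.TotA.P23
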