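import Pool.Agent.Q256.TotA.Def

set_option autoImplicit false

/-! Fermat tests to the base 2 (part 3). -/

namespace Pool.Agent.Q256.TotA.P3

open Pool.Agent.Q256.Tot

theorem t570 : ftest (NN 570) 11 1576 = true := by decide +kernel
theorem t607 : ftest (NN 607) 12 3801 = true := by decide +kernel
theorem t779 : ftest (NN 779) 13 4735 = true := by decide +kernel
theorem t893 : ftest (NN 893) 12 4015 = true := by decide +kernel
theorem t1101 : ftest (NN 1101) 12 2830 = true := by decide +kernel
theorem t1257 : ftest (NN 1257) 11 1854 = true := by decide +kernel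
theorem t1647 : ftest (NN 1647) 12 2138 = true := by decide +kernel
theorem t1678 : ftest (NN 1678) 11 2036 = true := by decide +kernel
theorem t1938 : ftest (NN 1938) 11 1224 = true := by decide +kernel
theorem t1996 : ftest (NN 1996) 11 1766 = true := by decide +kernel
theorem t2169 : ftest (NN 2169) 12 2195 = true := by decide +kernel
theorem t2231 : ftest (NN 2231) 12 3327 = true := by decide +kernel
theorem t2352 : ftest (NN 2352) 10 874 = true := by decide +kernel
theorem t2412 : ftest (NN 2412) 10 675 = true := by decide +kernel
theorem t2561 : ftest (NN 2561) 12 3058 = true := by decide +kernel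
theorem t2573 : ftest (NN 2573) 12 2601 = true := by decide +kernel
theorem t2824 : ftest (NN 2824) 11 1239 = true := by decide +kernel
theorem t2962 : ftest (NN 2962) 10 923 = true := by decide +kernel
theorem t3029 : ftest (NN 3029) 12 2447 = true := by decide +kernel
theorem t3141 : ftest (NN 3141) 11 1395 = true := by decide +kernel
theorem t3309 : ftest (NN 3309) 11 1369 = true := by decide +kernel
theorem t3601 : ftest (NN 3601) 11 1542 = true := by decide +kernel
theorem t3624 : ftest (NN 3624) 10 533 = true := by decide +kernel
theorem t3663 : ftest (NN 3663) 11 1042 = true := by decide +kernel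
theorem t4284 : ftest (NN 4284) 8 218 = true := by decide +kernel
theorem t4465 : ftest (NN 4465) 9 388 = true := by decide +kernel
theorem t4606 : ftest (NN 4606) 7 86 = true := by decide +kernel

theorem all : ∀ k ∈ [570, 607, 779, 893, 1101, 1257, 1647, 1678, 1938, 1996, 2169, 2231, 2352, 2412, 2561, 2573, 2824, 2962, 3029, 3141, 3309, 3601, 3624, 3663, 4284, 4465, 4606], ¬ (NN k).Prime := by
  intro k hk
  simp only [List.mem_cons, List.not_mem_nil, or_false] at hk
  rcases hk with rfl | rfl | rfl | rfl | rfl | rfl | rfl | rfl | rfl | rfl | rfl | rfl | rfl | rfl | rfl | rfl | rfl | rfl | rfl | rfl | rfl | rfl | rfl | rfl | rfl | rfl | rfl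
  · exact not_prime_of_ftest _ _ _ t570
  · exact not_prime_of_ftest _ _ _ t607
  · exact not_prime_of_ftest _ _ _ t779
  · exact not_prime_of_ftest _ _ _ t893
  · exact not_prime_of_ftest _ _ _ t1101
  · exact not_prime_of_ftest _ _ _ t1257
  · exact not_prime_of_ftest _ _ _ t1647
  · exact not_prime_of_ftest _ _ _ t1678
  · exact not_prime_of_ftest _ _ _ t1938
  · exact not_prime_of_ftest _ _ _ t1996
  · exact not_prime_of_ftest _ _ _ t2169
  · exact not_prime_of_ftest _ _ _ t2231
  · exact not_prime_of_ftest _ _ _ t2352
  · exact not_prime_of_ftest _ _ _ t2412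
  · exact not_prime_of_ftest _ _ _ t2561
  · exact not_prime_of_ftest _ _ _ t2573
  · exact not_prime_of_ftest _ _ _ t2824
  · exact not_prime_of_ftest _ _ _ t2962
  · exact not_prime_of_ftest _ _ _ t3029
  · exact not_prime_of_ftest _ _ _ t3141
  · exact not_prime_of_ftest _ _ _ t3309
  · exact not_prime_of_ftest _ _ _ t3601
  · exact not_prime_of_ftest _ _ _ t3624
  · exact not_prime_of_ftest _ _ _ t3663
  · exact not_prime_of_ftest _ _ _ t4284
  · exact not_prime_of_ftest _ _ _ t4465
  · exact not_prime_of_ftest _ _ _ t4606

end Pool.Agent.Q256.TotA.P3
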