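import Pool.Agent.Q256.TotA.Def

set_option autoImplicit false

/-! Fermat tests to the base 2 (part 4). -/

namespace Pool.Agent.Q256.TotA.P4

open Pool.Agent.Q256.Tot

theorem t28 : ftest (NN 28) 11 1425 = true := by decide +kernel
theorem t53 : ftest (NN 53) 12 2659 = true := by decide +kernel
theorem t518 : ftest (NN 518) 12 2368 = true := by decide +kernel
theorem t528 : ftest (NN 528) 11 1575 = true := by decide +kernel
theorem t781 : ftest (NN 781) 12 4052 = true := by decide +kernel
theorem t805 : ftest (NN 805) 13 4726 = true := by decide +kernel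
theorem t1114 : ftest (NN 1114) 11 2025 = true := by decide +kernel
theorem t1119 : ftest (NN 1119) 12 3039 = true := by decide +kernel
theorem t1126 : ftest (NN 1126) 12 2130 = true := by decide +kernel
theorem t1164 : ftest (NN 1164) 11 1508 = true := by decide +kernel
theorem t1236 : ftest (NN 1236) 11 1264 = true := by decide +kernel
theorem t1631 : ftest (NN 1631) 12 3736 = true := by decide +kernel
theorem t1704 : ftest (NN 1704) 11 1348 = true := by decide +kernel
theorem t1789 : ftest (NN 1789) 12 3388 = true := by decide +kernel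
theorem t1818 : ftest (NN 1818) 11 1192 = true := by decide +kernel
theorem t2000 : ftest (NN 2000) 11 1865 = true := by decide +kernel
theorem t2177 : ftest (NN 2177) 12 2817 = true := by decide +kernel
theorem t2484 : ftest (NN 2484) 11 1049 = true := by decide +kernel
theorem t2706 : ftest (NN 2706) 10 821 = true := by decide +kernel
theorem t2865 : ftest (NN 2865) 11 1775 = true := by decide +kernel
theorem t3089 : ftest (NN 3089) 12 2232 = true := by decide +kernel
theorem t3306 : ftest (NN 3306) 10 679 = true := by decide +kernel
theorem t3591 : ftest (NN 3591) 10 993 = true := by decide +kernel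
theorem t3908 : ftest (NN 3908) 10 537 = true := by decide +kernel
theorem t4200 : ftest (NN 4200) 8 253 = true := by decide +kernel
theorem t4234 : ftest (NN 4234) 9 362 = true := by decide +kernel
theorem t4633 : ftest (NN 4633) 8 134 = true := by decide +kernel

theorem all : ∀ k ∈ [28, 53, 518, 528, 781, 805, 1114, 1119, 1126, 1164, 1236, 1631, 1704, 1789, 1818, 2000, 2177, 2484, 2706, 2865, 3089, 3306, 3591, 3908, 4200, 4234, 4633], ¬ (NN k).Prime := by
  intro k hk
  simp only [List.mem_cons, List.not_mem_nil, or_false] at hk
  rcases hk with rfl | rfl | rfl | rfl | rfl | rfl | rfl | rfl | rfl | rfl | rfl | rfl | rfl | rfl | rfl | rfl | rfl | rfl | rfl | rfl | rfl | rfl | rfl | rfl | rfl | rfl | rfl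
  · exact not_prime_of_ftest _ _ _ t28
  · exact not_prime_of_ftest _ _ _ t53
  · exact not_prime_of_ftest _ _ _ t518
  · exact not_prime_of_ftest _ _ _ t528
  · exact not_prime_of_ftest _ _ _ t781
  · exact not_prime_of_ftest _ _ _ t805
  · exact not_prime_of_ftest _ _ _ t1114
  · exact not_prime_of_ftest _ _ _ t1119
  · exact not_prime_of_ftest _ _ _ t1126
  · exact not_prime_of_ftest _ _ _ t1164
  · exact not_prime_of_ftest _ _ _ t1236
  · exact not_prime_of_ftest _ _ _ t1631
  · exact not_prime_of_ftest _ _ _ t1704
  · exact not_prime_of_ftest _ _ _ t1789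
  · exact not_prime_of_ftest _ _ _ t1818
  · exact not_prime_of_ftest _ _ _ t2000
  · exact not_prime_of_ftest _ _ _ t2177
  · exact not_prime_of_ftest _ _ _ t2484
  · exact not_prime_of_ftest _ _ _ t2706
  · exact not_prime_of_ftest _ _ _ t2865
  · exact not_prime_of_ftest _ _ _ t3089
  · exact not_prime_of_ftest _ _ _ t3306
  · exact not_prime_of_ftest _ _ _ t3591
  · exact not_prime_of_ftest _ _ _ t3908
  · exact not_prime_of_ftest _ _ _ t4200
  · exact not_prime_of_ftest _ _ _ t4234
  · exact not_prime_of_ftest _ _ _ t4633

end Pool.Agent.Q256.TotA.P4
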