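import Pool.Agent.Q256.TotA.Def

set_option autoImplicit false

/-! Fermat tests to the base 2 (part 5). -/

namespace Pool.Agent.Q256.TotA.P5

open Pool.Agent.Q256.Tot

theorem t91 : ftest (NN 91) 12 3425 = true := by decide +kernel
theorem t537 : ftest (NN 537) 12 2450 = true := by decide +kernel
theorem t614 : ftest (NN 614) 12 2168 = true := by decide +kernel
theorem t652 : ftest (NN 652) 11 1684 = true := by decide +kernel
theorem t725 : ftest (NN 725) 12 4063 = true := by decide +kernel
theorem t766 : ftest (NN 766) 12 2214 = true := by decide +kernel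
theorem t845 : ftest (NN 845) 13 4712 = true := by decide +kernel
theorem t1233 : ftest (NN 1233) 12 2984 = true := by decide +kernel
theorem t1777 : ftest (NN 1777) 12 2915 = true := by decide +kernel
theorem t1947 : ftest (NN 1947) 11 1968 = true := by decide +kernel
theorem t1993 : ftest (NN 1993) 12 3738 = true := by decide +kernel
theorem t2184 : ftest (NN 2184) 11 1149 = true := by decide +kernel
theorem t2460 : ftest (NN 2460) 10 947 = true := by decide +kernel
theorem t2507 : ftest (NN 2507) 12 2496 = true := by decide +kernel
theorem t2588 : ftest (NN 2588) 11 1361 = true := by decide +kernel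
theorem t2733 : ftest (NN 2733) 11 1645 = true := by decide +kernel
theorem t2811 : ftest (NN 2811) 11 1444 = true := by decide +kernel
theorem t2837 : ftest (NN 2837) 11 1928 = true := by decide +kernel
theorem t3189 : ftest (NN 3189) 11 1258 = true := by decide +kernel
theorem t3195 : ftest (NN 3195) 11 1479 = true := by decide +kernel
theorem t3603 : ftest (NN 3603) 11 1099 = true := by decide +kernel
theorem t3656 : ftest (NN 3656) 10 711 = true := by decide +kernel
theorem t3849 : ftest (NN 3849) 10 858 = true := by decide +kernel
theorem t4186 : ftest (NN 4186) 9 398 = true := by decide +kernel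
theorem t4307 : ftest (NN 4307) 9 495 = true := by decide +kernel
theorem t4476 : ftest (NN 4476) 7 122 = true := by decide +kernel
theorem t4561 : ftest (NN 4561) 8 201 = true := by decide +kernel

theorem all : ∀ k ∈ [91, 537, 614, 652, 725, 766, 845, 1233, 1777, 1947, 1993, 2184, 2460, 2507, 2588, 2733, 2811, 2837, 3189, 3195, 3603, 3656, 3849, 4186, 4307, 4476, 4561], ¬ (NN k).Prime := by
  intro k hk
  simp only [List.mem_cons, List.not_mem_nil, or_false] at hk
  rcases hk with rfl | rfl | rfl | rfl | rfl | rfl | rfl | rfl | rfl | rfl | rfl | rfl | rfl | rfl | rfl | rfl | rfl | rfl | rfl | rfl | rfl | rfl | rfl | rfl | rfl | rfl | rfl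
  · exact not_prime_of_ftest _ _ _ t91
  · exact not_prime_of_ftest _ _ _ t537
  · exact not_prime_of_ftest _ _ _ t614
  · exact not_prime_of_ftest _ _ _ t652
  · exact not_prime_of_ftest _ _ _ t725
  · exact not_prime_of_ftest _ _ _ t766
  · exact not_prime_of_ftest _ _ _ t845
  · exact not_prime_of_ftest _ _ _ t1233
  · exact not_prime_of_ftest _ _ _ t1777
  · exact not_prime_of_ftest _ _ _ t1947
  · exact not_prime_of_ftest _ _ _ t1993
  · exact not_prime_of_ftest _ _ _ t2184
  · exact not_prime_of_ftest _ _ _ t2460
  · exact not_prime_of_ftest _ _ _ t2507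
  · exact not_prime_of_ftest _ _ _ t2588
  · exact not_prime_of_ftest _ _ _ t2733
  · exact not_prime_of_ftest _ _ _ t2811
  · exact not_prime_of_ftest _ _ _ t2837
  · exact not_prime_of_ftest _ _ _ t3189
  · exact not_prime_of_ftest _ _ _ t3195
  · exact not_prime_of_ftest _ _ _ t3603
  · exact not_prime_of_ftest _ _ _ t3656
  · exact not_prime_of_ftest _ _ _ t3849
  · exact not_prime_of_ftest _ _ _ t4186
  · exact not_prime_of_ftest _ _ _ t4307
  · exact not_prime_of_ftest _ _ _ t4476
  · exact not_prime_of_ftest _ _ _ t4561

end Pool.Agent.Q256.TotA.P5
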