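import Pool.Agent.Q256.TotA.Def

set_option autoImplicit false

/-! Fermat tests to the base 2 (part 6). -/

namespace Pool.Agent.Q256.TotA.P6

open Pool.Agent.Q256.Tot

theorem t121 : ftest (NN 121) 12 3857 = true := by decide +kernel
theorem t227 : ftest (NN 227) 12 3290 = true := by decide +kernel
theorem t548 : ftest (NN 548) 12 2373 = true := by decide +kernel
theorem t557 : ftest (NN 557) 12 3066 = true := by decide +kernel
theorem t628 : ftest (NN 628) 12 2250 = true := by decide +kernel
theorem t953 : ftest (NN 953) 13 4662 = true := by decide +kernel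
theorem t1436 : ftest (NN 1436) 11 2046 = true := by decide +kernel
theorem t1516 : ftest (NN 1516) 11 1807 = true := by decide +kernel
theorem t1524 : ftest (NN 1524) 11 1269 = true := by decide +kernel
theorem t1673 : ftest (NN 1673) 12 4081 = true := by decide +kernel
theorem t2297 : ftest (NN 2297) 12 2680 = true := by decide +kernel
theorem t2332 : ftest (NN 2332) 11 1332 = true := by decide +kernel
theorem t2423 : ftest (NN 2423) 12 2783 = true := by decide +kernel
theorem t2660 : ftest (NN 2660) 11 1465 = true := by decide +kernel
theorem t2850 : ftest (NN 2850) 10 827 = true := by decide +kernel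
theorem t3056 : ftest (NN 3056) 10 973 = true := by decide +kernel
theorem t3068 : ftest (NN 3068) 11 1197 = true := by decide +kernel
theorem t3069 : ftest (NN 3069) 11 1460 = true := by decide +kernel
theorem t3093 : ftest (NN 3093) 11 1566 = true := by decide +kernel
theorem t3116 : ftest (NN 3116) 11 1045 = true := by decide +kernel
theorem t3203 : ftest (NN 3203) 11 1835 = true := by decide +kernel
theorem t3275 : ftest (NN 3275) 12 2111 = true := by decide +kernel
theorem t3522 : ftest (NN 3522) 9 472 = true := by decide +kernel
theorem t3939 : ftest (NN 3939) 10 753 = true := by decide +kernel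
theorem t4457 : ftest (NN 4457) 9 316 = true := by decide +kernel
theorem t4477 : ftest (NN 4477) 8 255 = true := by decide +kernel
theorem t4597 : ftest (NN 4597) 8 153 = true := by decide +kernel

theorem all : ∀ k ∈ [121, 227, 548, 557, 628, 953, 1436, 1516, 1524, 1673, 2297, 2332, 2423, 2660, 2850, 3056, 3068, 3069, 3093, 3116, 3203, 3275, 3522, 3939, 4457, 4477, 4597], ¬ (NN k).Prime := by
  intro k hk
  simp only [List.mem_cons, List.not_mem_nil, or_false] at hk
  rcases hk with rfl | rfl | rfl | rfl | rfl | rfl | rfl | rfl | rfl | rfl | rfl | rfl | rfl | rfl | rfl | rfl | rfl | rfl | rfl | rfl | rfl | rfl | rfl | rfl | rfl | rfl | rfl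
  · exact not_prime_of_ftest _ _ _ t121
  · exact not_prime_of_ftest _ _ _ t227
  · exact not_prime_of_ftest _ _ _ t548
  · exact not_prime_of_ftest _ _ _ t557
  · exact not_prime_of_ftest _ _ _ t628
  · exact not_prime_of_ftest _ _ _ t953
  · exact not_prime_of_ftest _ _ _ t1436
  · exact not_prime_of_ftest _ _ _ t1516
  · exact not_prime_of_ftest _ _ _ t1524
  · exact not_prime_of_ftest _ _ _ t1673
  · exact not_prime_of_ftest _ _ _ t2297
  · exact not_prime_of_ftest _ _ _ t2332
  · exact not_prime_of_ftest _ _ _ t2423
  · exact not_prime_of_ftest _ _ _ t2660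
  · exact not_prime_of_ftest _ _ _ t2850
  · exact not_prime_of_ftest _ _ _ t3056
  · exact not_prime_of_ftest _ _ _ t3068
  · exact not_prime_of_ftest _ _ _ t3069
  · exact not_prime_of_ftest _ _ _ t3093
  · exact not_prime_of_ftest _ _ _ t3116
  · exact not_prime_of_ftest _ _ _ t3203
  · exact not_prime_of_ftest _ _ _ t3275
  · exact not_prime_of_ftest _ _ _ t3522
  · exact not_prime_of_ftest _ _ _ t3939
  · exact not_prime_of_ftest _ _ _ t4457
  · exact not_prime_of_ftest _ _ _ t4477
  · exact not_prime_of_ftest _ _ _ t4597

end Pool.Agent.Q256.TotA.P6
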