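import Pool.Agent.Q256.TotA.Def

set_option autoImplicit false

/-! Fermat tests to the base 2 (part 7). -/

namespace Pool.Agent.Q256.TotA.P7

open Pool.Agent.Q256.Tot

theorem t99 : ftest (NN 99) 12 2412 = true := by decide +kernel
theorem t191 : ftest (NN 191) 12 4089 = true := by decide +kernel
theorem t368 : ftest (NN 368) 11 1983 = true := by decide +kernel
theorem t523 : ftest (NN 523) 12 3903 = true := by decide +kernel
theorem t694 : ftest (NN 694) 12 2210 = true := by decide +kernel
theorem t819 : ftest (NN 819) 12 3146 = true := by decide +kernel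
theorem t1003 : ftest (NN 1003) 13 4635 = true := by decide +kernel
theorem t1096 : ftest (NN 1096) 11 1909 = true := by decide +kernel
theorem t1230 : ftest (NN 1230) 11 1479 = true := by decide +kernel
theorem t1386 : ftest (NN 1386) 11 1441 = true := by decide +kernel
theorem t1419 : ftest (NN 1419) 12 2875 = true := by decide +kernel
theorem t1565 : ftest (NN 1565) 12 3184 = true := by decide +kernel
theorem t2054 : ftest (NN 2054) 11 1695 = true := by decide +kernel
theorem t2272 : ftest (NN 2272) 11 1171 = true := by decide +kernel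
theorem t2440 : ftest (NN 2440) 11 1368 = true := by decide +kernel
theorem t2801 : ftest (NN 2801) 12 2566 = true := by decide +kernel
theorem t2827 : ftest (NN 2827) 12 2167 = true := by decide +kernel
theorem t2967 : ftest (NN 2967) 11 1246 = true := by decide +kernel
theorem t3096 : ftest (NN 3096) 10 783 = true := by decide +kernel
theorem t3250 : ftest (NN 3250) 11 1027 = true := by decide +kernel
theorem t3317 : ftest (NN 3317) 11 1638 = true := by decide +kernel
theorem t3606 : ftest (NN 3606) 10 532 = true := by decide +kernel
theorem t3677 : ftest (NN 3677) 11 1067 = true := by decide +kernel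
theorem t3806 : ftest (NN 3806) 10 678 = true := by decide +kernel
theorem t3978 : ftest (NN 3978) 9 359 = true := by decide +kernel
theorem t4546 : ftest (NN 4546) 7 122 = true := by decide +kernel
theorem t4555 : ftest (NN 4555) 8 253 = true := by decide +kernel

theorem all : ∀ k ∈ [99, 191, 368, 523, 694, 819, 1003, 1096, 1230, 1386, 1419, 1565, 2054, 2272, 2440, 2801, 2827, 2967, 3096, 3250, 3317, 3606, 3677, 3806, 3978, 4546, 4555], ¬ (NN k).Prime := by
  intro k hk
  simp only [List.mem_cons, List.not_mem_nil, or_false] at hk
  rcases hk with rfl | rfl | rfl | rfl | rfl | rfl | rfl | rfl | rfl | rfl | rfl | rfl | rfl | rfl | rfl | rfl | rfl | rfl | rfl | rfl | rfl | rfl | rfl | rfl | rfl | rfl | rfl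
  · exact not_prime_of_ftest _ _ _ t99
  · exact not_prime_of_ftest _ _ _ t191
  · exact not_prime_of_ftest _ _ _ t368
  · exact not_prime_of_ftest _ _ _ t523
  · exact not_prime_of_ftest _ _ _ t694
  · exact not_prime_of_ftest _ _ _ t819
  · exact not_prime_of_ftest _ _ _ t1003
  · exact not_prime_of_ftest _ _ _ t1096
  · exact not_prime_of_ftest _ _ _ t1230
  · exact not_prime_of_ftest _ _ _ t1386
  · exact not_prime_of_ftest _ _ _ t1419
  · exact not_prime_of_ftest _ _ _ t1565
  · exact not_prime_of_ftest _ _ _ t2054
  · exact not_prime_of_ftest _ _ _ t2272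
  · exact not_prime_of_ftest _ _ _ t2440
  · exact not_prime_of_ftest _ _ _ t2801
  · exact not_prime_of_ftest _ _ _ t2827
  · exact not_prime_of_ftest _ _ _ t2967
  · exact not_prime_of_ftest _ _ _ t3096
  · exact not_prime_of_ftest _ _ _ t3250
  · exact not_prime_of_ftest _ _ _ t3317
  · exact not_prime_of_ftest _ _ _ t3606
  · exact not_prime_of_ftest _ _ _ t3677
  · exact not_prime_of_ftest _ _ _ t3806
  · exact not_prime_of_ftest _ _ _ t3978
  · exact not_prime_of_ftest _ _ _ t4546
  · exact not_prime_of_ftest _ _ _ t4555

end Pool.Agent.Q256.TotA.P7
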