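import Pool.Agent.Q256.TotA.Def

set_option autoImplicit false

/-! Fermat tests to the base 2 (part 8). -/

namespace Pool.Agent.Q256.TotA.P8

open Pool.Agent.Q256.Tot

theorem t122 : ftest (NN 122) 11 1528 = true := by decide +kernel
theorem t644 : ftest (NN 644) 12 2378 = true := by decide +kernel
theorem t1025 : ftest (NN 1025) 13 4622 = true := by decide +kernel
theorem t1034 : ftest (NN 1034) 12 2304 = true := by decide +kernel
theorem t1212 : ftest (NN 1212) 11 1107 = true := by decide +kernel
theorem t1483 : ftest (NN 1483) 13 4109 = true := by decide +kernel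
theorem t1611 : ftest (NN 1611) 12 2558 = true := by decide +kernel
theorem t1729 : ftest (NN 1729) 12 3873 = true := by decide +kernel
theorem t1746 : ftest (NN 1746) 11 1293 = true := by decide +kernel
theorem t1827 : ftest (NN 1827) 12 2081 = true := by decide +kernel
theorem t2104 : ftest (NN 2104) 11 1325 = true := by decide +kernel
theorem t2139 : ftest (NN 2139) 11 1992 = true := by decide +kernel
theorem t2215 : ftest (NN 2215) 12 3301 = true := by decide +kernel
theorem t2270 : ftest (NN 2270) 11 1706 = true := by decide +kernel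
theorem t2465 : ftest (NN 2465) 12 3043 = true := by decide +kernel
theorem t2683 : ftest (NN 2683) 12 2902 = true := by decide +kernel
theorem t2703 : ftest (NN 2703) 11 1916 = true := by decide +kernel
theorem t2732 : ftest (NN 2732) 11 1131 = true := by decide +kernel
theorem t2778 : ftest (NN 2778) 10 927 = true := by decide +kernel
theorem t2979 : ftest (NN 2979) 11 1420 = true := by decide +kernel
theorem t3629 : ftest (NN 3629) 11 1615 = true := by decide +kernel
theorem t3700 : ftest (NN 3700) 10 641 = true := by decide +kernel
theorem t3847 : ftest (NN 3847) 10 894 = true := by decide +kernel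
theorem t4012 : ftest (NN 4012) 9 419 = true := by decide +kernel
theorem t4095 : ftest (NN 4095) 10 541 = true := by decide +kernel
theorem t4474 : ftest (NN 4474) 8 182 = true := by decide +kernel
theorem t4584 : ftest (NN 4584) 7 67 = true := by decide +kernel

theorem all : ∀ k ∈ [122, 644, 1025, 1034, 1212, 1483, 1611, 1729, 1746, 1827, 2104, 2139, 2215, 2270, 2465, 2683, 2703, 2732, 2778, 2979, 3629, 3700, 3847, 4012, 4095, 4474, 4584], ¬ (NN k).Prime := by
  intro k hk
  simp only [List.mem_cons, List.not_mem_nil, or_false] at hk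
  rcases hk with rfl | rfl | rfl | rfl | rfl | rfl | rfl | rfl | rfl | rfl | rfl | rfl | rfl | rfl | rfl | rfl | rfl | rfl | rfl | rfl | rfl | rfl | rfl | rfl | rfl | rfl | rfl
  · exact not_prime_of_ftest _ _ _ t122
  · exact not_prime_of_ftest _ _ _ t644
  · exact not_prime_of_ftest _ _ _ t1025
  · exact not_prime_of_ftest _ _ _ t1034
  · exact not_prime_of_ftest _ _ _ t1212
  · exact not_prime_of_ftest _ _ _ t1483
  · exact not_prime_of_ftest _ _ _ t1611
  · exact not_prime_of_ftest _ _ _ t1729
  · exact not_prime_of_ftest _ _ _ t1746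
  · exact not_prime_of_ftest _ _ _ t1827
  · exact not_prime_of_ftest _ _ _ t2104
  · exact not_prime_of_ftest _ _ _ t2139
  · exact not_prime_of_ftest _ _ _ t2215
  · exact not_prime_of_ftest _ _ _ t2270
  · exact not_prime_of_ftest _ _ _ t2465
  · exact not_prime_of_ftest _ _ _ t2683
  · exact not_prime_of_ftest _ _ _ t2703
  · exact not_prime_of_ftest _ _ _ t2732
  · exact not_prime_of_ftest _ _ _ t2778
  · exact not_prime_of_ftest _ _ _ t2979
  · exact not_prime_of_ftest _ _ _ t3629
  · exact not_prime_of_ftest _ _ _ t3700
  · exact not_prime_of_ftest _ _ _ t3847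
  · exact not_prime_of_ftest _ _ _ t4012
  · exact not_prime_of_ftest _ _ _ t4095
  · exact not_prime_of_ftest _ _ _ t4474
  · exact not_prime_of_ftest _ _ _ t4584

end Pool.Agent.Q256.TotA.P8
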