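import Pool.Agent.Q256.TotA.Def

set_option autoImplicit false

/-! Fermat tests to the base 2 (part 9). -/

namespace Pool.Agent.Q256.TotA.P9

open Pool.Agent.Q256.Tot

theorem t119 : ftest (NN 119) 12 3974 = true := by decide +kernel
theorem t189 : ftest (NN 189) 12 2858 = true := by decide +kernel
theorem t372 : ftest (NN 372) 11 1197 = true := by decide +kernel
theorem t405 : ftest (NN 405) 12 3116 = true := by decide +kernel
theorem t576 : ftest (NN 576) 11 1583 = true := by decide +kernel
theorem t745 : ftest (NN 745) 13 4581 = true := by decide +kernel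
theorem t832 : ftest (NN 832) 11 1883 = true := by decide +kernel
theorem t924 : ftest (NN 924) 11 1552 = true := by decide +kernel
theorem t1030 : ftest (NN 1030) 12 2103 = true := by decide +kernel
theorem t1643 : ftest (NN 1643) 13 4111 = true := by decide +kernel
theorem t1663 : ftest (NN 1663) 12 3179 = true := by decide +kernel
theorem t1917 : ftest (NN 1917) 11 1745 = true := by decide +kernel
theorem t2148 : ftest (NN 2148) 10 997 = true := by decide +kernel
theorem t2417 : ftest (NN 2417) 12 2586 = true := by decide +kernel
theorem t2713 : ftest (NN 2713) 12 2396 = true := by decide +kernel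
theorem t3091 : ftest (NN 3091) 11 2018 = true := by decide +kernel
theorem t3147 : ftest (NN 3147) 11 1046 = true := by decide +kernel
theorem t3163 : ftest (NN 3163) 12 2265 = true := by decide +kernel
theorem t3465 : ftest (NN 3465) 11 1229 = true := by decide +kernel
theorem t3539 : ftest (NN 3539) 11 1380 = true := by decide +kernel
theorem t3695 : ftest (NN 3695) 11 1387 = true := by decide +kernel
theorem t4077 : ftest (NN 4077) 9 504 = true := by decide +kernel
theorem t4133 : ftest (NN 4133) 10 811 = true := by decide +kernel
theorem t4255 : ftest (NN 4255) 10 703 = true := by decide +kernel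
theorem t4329 : ftest (NN 4329) 9 393 = true := by decide +kernel
theorem t4449 : ftest (NN 4449) 8 219 = true := by decide +kernel
theorem t4588 : ftest (NN 4588) 7 101 = true := by decide +kernel

theorem all : ∀ k ∈ [119, 189, 372, 405, 576, 745, 832, 924, 1030, 1643, 1663, 1917, 2148, 2417, 2713, 3091, 3147, 3163, 3465, 3539, 3695, 4077, 4133, 4255, 4329, 4449, 4588], ¬ (NN k).Prime := by
  intro k hk
  simp only [List.mem_cons, List.not_mem_nil, or_false] at hk
  rcases hk with rfl | rfl | rfl | rfl | rfl | rfl | rfl | rfl | rfl | rfl | rfl | rfl | rfl | rfl | rfl | rfl | rfl | rfl | rfl | rfl | rfl | rfl | rfl | rfl | rfl | rfl | rfl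
  · exact not_prime_of_ftest _ _ _ t119
  · exact not_prime_of_ftest _ _ _ t189
  · exact not_prime_of_ftest _ _ _ t372
  · exact not_prime_of_ftest _ _ _ t405
  · exact not_prime_of_ftest _ _ _ t576
  · exact not_prime_of_ftest _ _ _ t745
  · exact not_prime_of_ftest _ _ _ t832
  · exact not_prime_of_ftest _ _ _ t924
  · exact not_prime_of_ftest _ _ _ t1030
  · exact not_prime_of_ftest _ _ _ t1643
  · exact not_prime_of_ftest _ _ _ t1663
  · exact not_prime_of_ftest _ _ _ t1917
  · exact not_prime_of_ftest _ _ _ t2148
  · exact not_prime_of_ftest _ _ _ t2417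
  · exact not_prime_of_ftest _ _ _ t2713
  · exact not_prime_of_ftest _ _ _ t3091
  · exact not_prime_of_ftest _ _ _ t3147
  · exact not_prime_of_ftest _ _ _ t3163
  · exact not_prime_of_ftest _ _ _ t3465
  · exact not_prime_of_ftest _ _ _ t3539
  · exact not_prime_of_ftest _ _ _ t3695
  · exact not_prime_of_ftest _ _ _ t4077
  · exact not_prime_of_ftest _ _ _ t4133
  · exact not_prime_of_ftest _ _ _ t4255
  · exact not_prime_of_ftest _ _ _ t4329
  · exact not_prime_of_ftest _ _ _ t4449
  · exact not_prime_of_ftest _ _ _ t4588

end Pool.Agent.Q256.TotA.P9
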