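import Pool.Agent.Q256.TotA.Dat
import Pool.Agent.Q256.TotA.P0
import Pool.Agent.Q256.TotA.P1
import Pool.Agent.Q256.TotA.P2
import Pool.Agent.Q256.TotA.P3
import Pool.Agent.Q256.TotA.P4
import Pool.Agent.Q256.TotA.P5
import Pool.Agent.Q256.TotA.P6
import Pool.Agent.Q256.TotA.P7
import Pool.Agent.Q256.TotA.P8
import Pool.Agent.Q256.TotA.P9
import Pool.Agent.Q256.TotA.P10
import Pool.Agent.Q256.TotA.P11
import Pool.Agent.Q256.TotA.P12
import Pool.Agent.Q256.TotA.P13
import Pool.Agent.Q256.TotA.P14
import Pool.Agent.Q256.TotA.P15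
import Pool.Agent.Q256.TotA.P16
import Pool.Agent.Q256.TotA.P17
import Pool.Agent.Q256.TotA.P18
import Pool.Agent.Q256.TotA.P19
import Pool.Agent.Q256.TotA.P20
import Pool.Agent.Q256.TotA.P21
import Pool.Agent.Q256.TotA.P22
import Pool.Agent.Q256.TotA.P23

set_option autoImplicit false

/-! All the numbers `(k + 1) ^ φ(4722 - k) + k`, `0 < k < 4722`, are composite. -/

namespace Pool.Agent.Q256.TotA

theorem not_prime (k : ℕ) (h0 : 0 < k) (h1 : k < 4722) :
    ¬ ((k + 1) ^ Nat.totient (4722 - k) + k).Prime := by
  rw [← NN_eq k h1]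
  have hk : k ∈ dat.map Prod.fst := by
    rw [dat_keys, List.mem_range'_1]
    omega
  obtain ⟨p, hp, hpk⟩ := List.mem_map.1 hk
  rcases dat_all p hp with h | h
  · have h2 : k ∈ (dat.filter (fun p => Nat.beq p.2 0)).map Prod.fst := by
      rw [List.mem_map]
      refine ⟨p, ?_, hpk⟩
      rw [List.mem_filter]
      exact ⟨hp, by rw [h]; rfl⟩
    have h3 := List.all_eq_true.1 dat_hard k h2
    simp only [Bool.or_eq_true, List.elem_iff] at h3
    rcases h3 with (((((((((((((((((((((((h | h) | h) | h) | h) | h) | h) | h) | h) | h) | h) | h) | h) | h) | h) | h) | h) | h) | h) | h) | h) | h) | h) | h)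
    · exact P0.all k h
    · exact P1.all k h
    · exact P2.all k h
    · exact P3.all k h
    · exact P4.all k h
    · exact P5.all k h
    · exact P6.all k h
    · exact P7.all k h
    · exact P8.all k h
    · exact P9.all k h
    · exact P10.all k h
    · exact P11.all k h
    · exact P12.all k h
    · exact P13.all k h
    · exact P14.all k h
    · exact P15.all k h
    · exact P16.all k h
    · exact P17.all k h
    · exact P18.all k h
    · exact P19.all k h
    · exact P20.all k h
    · exact P21.all k h
    · exact P22.all k h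
    · exact P23.all k h
  · rwa [hpk] at h

end Pool.Agent.Q256.TotA
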