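import Pool.Agent.Q256.TotA.Def

set_option autoImplicit false

/-! Fermat tests to the base 2 (part 15). -/

namespace Pool.Agent.Q256.TotA.P15

open Pool.Agent.Q256.Tot

theorem t424 : ftest (NN 424) 11 2004 = true := by decide +kernel
theorem t471 : ftest (NN 471) 12 2878 = true := by decide +kernel
theorem t509 : ftest (NN 509) 13 4295 = true := by decide +kernel
theorem t513 : ftest (NN 513) 12 2972 = true := by decide +kernel
theorem t688 : ftest (NN 688) 12 2376 = true := by decide +kernel
theorem t749 : ftest (NN 749) 13 4547 = true := by decide +kernel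
theorem t997 : ftest (NN 997) 12 3687 = true := by decide +kernel
theorem t1046 : ftest (NN 1046) 12 2303 = true := by decide +kernel
theorem t1282 : ftest (NN 1282) 11 1735 = true := by decide +kernel
theorem t1466 : ftest (NN 1466) 11 1894 = true := by decide +kernel
theorem t1476 : ftest (NN 1476) 11 1422 = true := by decide +kernel
theorem t1979 : ftest (NN 1979) 12 3450 = true := by decide +kernel
theorem t2481 : ftest (NN 2481) 12 2081 = true := by decide +kernel
theorem t2592 : ftest (NN 2592) 10 794 = true := by decide +kernel
theorem t2870 : ftest (NN 2870) 11 1327 = true := by decide +kernel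
theorem t2933 : ftest (NN 2933) 12 2575 = true := by decide +kernel
theorem t2997 : ftest (NN 2997) 11 1271 = true := by decide +kernel
theorem t3483 : ftest (NN 3483) 10 1024 = true := by decide +kernel
theorem t3501 : ftest (NN 3501) 11 1060 = true := by decide +kernel
theorem t3523 : ftest (NN 3523) 11 1591 = true := by decide +kernel
theorem t3689 : ftest (NN 3689) 11 1529 = true := by decide +kernel
theorem t3777 : ftest (NN 3777) 10 642 = true := by decide +kernel
theorem t3798 : ftest (NN 3798) 9 357 = true := by decide +kernel
theorem t3851 : ftest (NN 3851) 11 1180 = true := by decide +kernel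
theorem t3958 : ftest (NN 3958) 10 568 = true := by decide +kernel
theorem t4194 : ftest (NN 4194) 8 241 = true := by decide +kernel
theorem t4446 : ftest (NN 4446) 8 134 = true := by decide +kernel

theorem all : ∀ k ∈ [424, 471, 509, 513, 688, 749, 997, 1046, 1282, 1466, 1476, 1979, 2481, 2592, 2870, 2933, 2997, 3483, 3501, 3523, 3689, 3777, 3798, 3851, 3958, 4194, 4446], ¬ (NN k).Prime := by
  intro k hk
  simp only [List.mem_cons, List.not_mem_nil, or_false] at hk
  rcases hk with rfl | rfl | rfl | rfl | rfl | rfl | rfl | rfl | rfl | rfl | rfl | rfl | rfl | rfl | rfl | rfl | rfl | rfl | rfl | rfl | rfl | rfl | rfl | rfl | rfl | rfl | rfl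
  · exact not_prime_of_ftest _ _ _ t424
  · exact not_prime_of_ftest _ _ _ t471
  · exact not_prime_of_ftest _ _ _ t509
  · exact not_prime_of_ftest _ _ _ t513
  · exact not_prime_of_ftest _ _ _ t688
  · exact not_prime_of_ftest _ _ _ t749
  · exact not_prime_of_ftest _ _ _ t997
  · exact not_prime_of_ftest _ _ _ t1046
  · exact not_prime_of_ftest _ _ _ t1282
  · exact not_prime_of_ftest _ _ _ t1466
  · exact not_prime_of_ftest _ _ _ t1476
  · exact not_prime_of_ftest _ _ _ t1979
  · exact not_prime_of_ftest _ _ _ t2481
  · exact not_prime_of_ftest _ _ _ t2592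
  · exact not_prime_of_ftest _ _ _ t2870
  · exact not_prime_of_ftest _ _ _ t2933
  · exact not_prime_of_ftest _ _ _ t2997
  · exact not_prime_of_ftest _ _ _ t3483
  · exact not_prime_of_ftest _ _ _ t3501
  · exact not_prime_of_ftest _ _ _ t3523
  · exact not_prime_of_ftest _ _ _ t3689
  · exact not_prime_of_ftest _ _ _ t3777
  · exact not_prime_of_ftest _ _ _ t3798
  · exact not_prime_of_ftest _ _ _ t3851
  · exact not_prime_of_ftest _ _ _ t3958
  · exact not_prime_of_ftest _ _ _ t4194
  · exact not_prime_of_ftest _ _ _ t4446

end Pool.Agent.Q256.TotA.P15
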